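import Pool.Agent.U167.AR.Limit4

/-!
Convergence of the lattice derivatives along arbitrary sequences of rectangles.
-/

set_option maxHeartbeats 1000000

namespace Pool.Agent.U167.AR.Limit

open Filter Topology

variable {Q : ℕ → ℕ → ℝ} {n : ℕ → ℕ} {f g : ℝ → ℝ → ℝ}

theorem Reg.mono (hQ : Reg Q) {w h h' : ℕ} (h1 : 2 ≤ w) (h2 : h ≤ h') : Q w h ≤ Q w h' := by
  obtain ⟨v, rfl⟩ := Nat.exists_eq_add_of_le' (show 1 ≤ w by omega)
  have e1 := hQ.dual v h
  have e2 := hQ.dual v h'
  have e3 := hQ.anti (w := h + 1) (w' := h' + 1) (h := v) (by omega) (by omega) (by omega)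
  linarith

theorem seq_tendsto (hn : Tendsto n atTop atTop) {W : ℕ → ℕ} {x : ℝ} (hx : 0 < x)
    (hW : Tendsto (fun j => (W j : ℝ) / n j) atTop (𝓝 x)) : Tendsto W atTop atTop := by
  have hnr : Tendsto (fun j => (n j : ℝ)) atTop atTop :=
    (tendsto_natCast_atTop_atTop (R := ℝ)).comp hn
  have h1 : Tendsto (fun j => (W j : ℝ) / n j * n j) atTop atTop := hW.pos_mul_atTop hx hnr
  have h2 : Tendsto (fun j => (W j : ℝ)) atTop atTop := by
    refine h1.congr' ?_
    filter_upwards [hn.eventually (eventually_ge_atTop 1)] with j hj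
    have hj' : (n j : ℝ) ≠ 0 := by
      have : 0 < n j := hj
      positivity
    field_simp
  exact tendsto_natCast_atTop_iff.mp h2

theorem seq_le (hn : Tendsto n atTop atTop) {W : ℕ → ℕ} {x x' : ℝ} (hx : 0 < x) (hxx : x < x')
    (hW : Tendsto (fun j => (W j : ℝ) / n j) atTop (𝓝 x)) : ∀ᶠ j in atTop, W j ≤ fl x' (n j) := by
  have h1 := (fl_div (hx.trans hxx) hn)
  obtain ⟨z, hz1, hz2⟩ := exists_between hxx
  filter_upwards [hW.eventually (eventually_le_nhds hz1), h1.eventually (eventually_ge_nhds hz2),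
    hn.eventually (eventually_ge_atTop 1)] with j h2 h3 h4
  have h5 : (0:ℝ) < n j := by exact_mod_cast h4
  have h6 := h2.trans h3
  rw [div_le_div_iff_of_pos_right h5] at h6
  exact_mod_cast h6

theorem seq_ge (hn : Tendsto n atTop atTop) {W : ℕ → ℕ} {x x' : ℝ} (hx : 0 < x') (hxx : x' < x)
    (hW : Tendsto (fun j => (W j : ℝ) / n j) atTop (𝓝 x)) : ∀ᶠ j in atTop, fl x' (n j) ≤ W j := by
  have h1 := (fl_div hx hn)
  obtain ⟨z, hz1, hz2⟩ := exists_between hxx
  filter_upwards [hW.eventually (eventually_ge_nhds hz2), h1.eventually (eventually_le_nhds hz1),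
    hn.eventually (eventually_ge_atTop 1)] with j h2 h3 h4
  have h5 : (0:ℝ) < n j := by exact_mod_cast h4
  have h6 := h3.trans h2
  rw [div_le_div_iff_of_pos_right h5] at h6
  exact_mod_cast h6

/-- Convergence along arbitrary sequences of rectangles. -/
theorem gen_lim (hQ : Reg Q) (hf : IsLimit Q n f) (hg : IsD Q n g) {x y : ℝ} (hx : 0 < x)
    (hy : 0 < y) {W H : ℕ → ℕ} (hW : Tendsto (fun j => (W j : ℝ) / n j) atTop (𝓝 x))
    (hH : Tendsto (fun j => (H j : ℝ) / n j) atTop (𝓝 y)) :
    Tendsto (fun j => Q (W j) (H j)) atTop (𝓝 (f x y)) := by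
  obtain ⟨hn, hlim⟩ := hf
  have hcont := cont_f hQ ⟨hn, hlim⟩ hg hx hy
  rw [Metric.tendsto_nhds]
  intro ε hε
  obtain ⟨r, hr, hb⟩ := Metric.continuousAt_iff.mp hcont (ε / 2) (by positivity)
  obtain ⟨e, he0, her, hex, hey⟩ : ∃ e : ℝ, 0 < e ∧ e < r ∧ e < x ∧ e < y := by
    refine ⟨min r (min x y) / 2, by positivity, ?_, ?_, ?_⟩
    · have : min r (min x y) ≤ r := min_le_left _ _
      linarith
    · have : min r (min x y) ≤ x := (min_le_right _ _).trans (min_le_left _ _)
      linarith
    · have : min r (min x y) ≤ y := (min_le_right _ _).trans (min_le_right _ _)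
      linarith
  have b1 := hb (x := (x + e, y - e)) (by
    rw [Prod.dist_eq, Real.dist_eq, Real.dist_eq]
    simp only [add_sub_cancel_left]
    rw [show y - e - y = -e by ring, abs_neg, abs_of_pos he0, max_self]
    exact her)
  have b2 := hb (x := (x - e, y + e)) (by
    rw [Prod.dist_eq, Real.dist_eq, Real.dist_eq]
    simp only [add_sub_cancel_left]
    rw [show x - e - x = -e by ring, abs_neg, abs_of_pos he0, max_self]
    exact her)
  rw [Real.dist_eq] at b1 b2
  simp only at b1 b2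
  rw [abs_lt] at b1 b2
  have l1 := (hlim (x + e) (y - e) (by linarith) (by linarith)).eventually
    (eventually_gt_nhds (show f x y - ε < f (x + e) (y - e) by linarith))
  have l2 := (hlim (x - e) (y + e) (by linarith) (by linarith)).eventually
    (eventually_lt_nhds (show f (x - e) (y + e) < f x y + ε by linarith))
  filter_upwards [l1, l2, seq_le hn hx (show x < x + e by linarith) hW,
    seq_ge hn (show 0 < x - e by linarith) (show x - e < x by linarith) hW,
    seq_le hn hy (show y < y + e by linarith) hH,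
    seq_ge hn (show 0 < y - e by linarith) (show y - e < y by linarith) hH,
    (seq_tendsto hn hx hW).eventually (eventually_ge_atTop 2),
    (seq_tendsto hn hy hH).eventually (eventually_ge_atTop 1),
    (fl_tendsto (show 0 < x - e by linarith) hn).eventually (eventually_ge_atTop 2),
    (fl_tendsto (show 0 < y - e by linarith) hn).eventually (eventually_ge_atTop 1)] with
    j p1 p2 p3 p4 p5 p6 p7 p8 p9 p10
  rw [Real.dist_eq, abs_lt]
  have q1 : Q (fl (x + e) (n j)) (fl (y - e) (n j)) ≤ Q (W j) (H j) :=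
    (hQ.anti (by omega) p3 p10).trans (hQ.mono p7 p6)
  have q2 : Q (W j) (H j) ≤ Q (fl (x - e) (n j)) (fl (y + e) (n j)) :=
    (hQ.anti (by omega) p4 p8).trans (hQ.mono p9 p5)
  constructor <;> linarith

/-- Convergence of the lattice derivatives along arbitrary sequences of rectangles. -/
theorem gen_deriv (hQ : Reg Q) (hf : IsLimit Q n f) (hg : IsD Q n g) {x y : ℝ} (hx : 0 < x)
    (hy : 0 < y) {W H : ℕ → ℕ} (hW : Tendsto (fun j => (W j : ℝ) / n j) atTop (𝓝 x))
    (hH : Tendsto (fun j => (H j : ℝ) / n j) atTop (𝓝 y)) :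
    Tendsto (fun j => (n j : ℝ) * (Q (W j) (H j) - Q (W j + 1) (H j))) atTop (𝓝 (g x y)) := by
  have hn := hf.1
  obtain ⟨K, hK, hyx⟩ := exists_K (x := x / 2) (y := 2 * y) (by linarith)
  obtain ⟨c1, C1, hc1, hC1, h1⟩ := hQ.first K hK
  obtain ⟨C2, hC2, h2⟩ := hQ.second K hK
  obtain ⟨C3, hC3, h3⟩ := quad hQ hf hg K hK
  have hK0 : (0:ℝ) ≤ K := Nat.cast_nonneg K
  have hwW := seq_tendsto hn hx hW
  have hhH := seq_tendsto hn hy hH
  set a : ℕ → ℝ := fun j => (n j : ℝ) * (Q (W j) (H j) - Q (W j + 1) (H j)) with ha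
  -- the aspect ratio
  have hasp : ∀ᶠ j in atTop, H j ≤ K * W j := by
    filter_upwards [hW.eventually (eventually_ge_nhds (show x / 2 < x by linarith)),
      hH.eventually (eventually_le_nhds (show y < 2 * y by linarith)),
      hn.eventually (eventually_ge_atTop 1)] with j p1 p2 p3
    have p4 : (0:ℝ) < n j := by exact_mod_cast p3
    have p5 : (H j : ℝ) / n j ≤ K * ((W j : ℝ) / n j) := by nlinarith
    rw [← mul_div_assoc, div_le_div_iff_of_pos_right p4] at p5
    exact_mod_cast p5
  -- boundedness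
  have hbd : ∀ᶠ j in atTop, 0 ≤ a j ∧ a j ≤ C1 / (y / 2) := by
    filter_upwards [hasp, hwW.eventually (eventually_ge_atTop 1),
      hhH.eventually (eventually_ge_atTop 1),
      hH.eventually (eventually_ge_nhds (show y / 2 < y by linarith)),
      hn.eventually (eventually_ge_atTop 1)] with j p1 p2 p3 p4 p5
    obtain ⟨q1, q2⟩ := h1 (W j) (H j) p2 p3 p1
    have q3 := hQ.nonneg (W j) (H j)
    have q4 := hQ.le_one (W j) (H j)
    have p6 : (0:ℝ) < n j := by exact_mod_cast p5
    have p7 : (0:ℝ) < H j := by exact_mod_cast p3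
    have q5 : 0 ≤ c1 * Q (W j) (H j) / H j := by positivity
    refine ⟨mul_nonneg p6.le (by linarith), ?_⟩
    have q6 : Q (W j) (H j) - Q (W j + 1) (H j) ≤ C1 / H j := by
      refine q2.trans ?_
      gcongr
      nlinarith
    calc a j ≤ n j * (C1 / H j) := mul_le_mul_of_nonneg_left q6 p6.le
      _ = C1 / (H j / n j) := by field_simp
      _ ≤ C1 / (y / 2) := by gcongr
  -- approximation by difference quotients
  have hf1 := le_one_f hQ hf hx hy
  have hf0 := nonneg_f hQ hf hx hy
  obtain ⟨g', hg', hq⟩ := conv (a := a) (b := fun δ => (f x y - f (x + δ) y) / δ)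
    (C := C2 * f x y / y ^ 2 + 1) (δ0 := 1) one_pos (by positivity) (by
      intro δ hδ _
      have hκ := fl_div hδ hn
      have hWk : Tendsto (fun j => ((W j + fl δ (n j) : ℕ) : ℝ) / n j) atTop (𝓝 (x + δ)) := by
        refine (hW.add hκ).congr fun j => ?_
        push_cast
        ring
      have l1 := gen_lim hQ hf hg hx hy hW hH
      have l2 := gen_lim hQ hf hg (show 0 < x + δ by linarith) hy hWk hH
      have hB := ((l1.sub l2).sub_const (f x y - f (x + δ) y)).abs
      rw [sub_self, abs_zero] at hB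
      have hE : Tendsto (fun j => ((fl δ (n j) : ℝ) / n j) ^ 2 *
          (C2 * Q (W j) (H j) / ((H j : ℝ) / n j) ^ 2)) atTop
          (𝓝 (δ ^ 2 * (C2 * f x y / y ^ 2))) :=
        (hκ.pow 2).mul ((l1.const_mul C2).div (hH.pow 2) (by positivity))
      have hA : Tendsto (fun j => |δ - (fl δ (n j) : ℝ) / n j| * (C1 / (y / 2))) atTop (𝓝 0) := by
        have := ((hκ.const_sub δ).abs).mul_const (C1 / (y / 2))
        rw [sub_self, abs_zero, zero_mul] at this
        exact this
      have hδ2 : 0 < δ ^ 2 := by positivity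
      filter_upwards [hasp, hwW.eventually (eventually_ge_atTop 1),
        hhH.eventually (eventually_ge_atTop 1), hn.eventually (eventually_ge_atTop 1), hbd,
        hB.eventually (eventually_le_nhds (show 0 < δ ^ 2 / 4 by positivity)),
        hA.eventually (eventually_le_nhds (show 0 < δ ^ 2 / 4 by positivity)),
        hE.eventually (eventually_le_nhds (show δ ^ 2 * (C2 * f x y / y ^ 2) <
          δ ^ 2 * (C2 * f x y / y ^ 2) + δ ^ 2 / 2 by linarith))] with j p1 p2 p3 p4 p5 p6 p7 p8
      have p9 : (0:ℝ) < n j := by exact_mod_cast p4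
      have p10 : (0:ℝ) < H j := by exact_mod_cast p3
      have hEE : ∀ i, W j ≤ i → |Q i (H j) - 2 * Q (i + 1) (H j) + Q (i + 2) (H j)| ≤
          C2 * Q (W j) (H j) / H j ^ 2 := by
        intro i hi
        refine (h2 i (H j) (by omega) p3 (p1.trans (Nat.mul_le_mul_left _ hi))).trans ?_
        have := hQ.anti p2 hi p3
        gcongr
      have t := (taylor (q := fun i => Q i (H j)) hEE).2 (fl δ (n j))
      have e1 : ((fl δ (n j) : ℝ)) ^ 2 * (C2 * Q (W j) (H j) / H j ^ 2) =
          ((fl δ (n j) : ℝ) / n j) ^ 2 * (C2 * Q (W j) (H j) / ((H j : ℝ) / n j) ^ 2) := by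
        field_simp
      rw [e1] at t
      have e2 : (fl δ (n j) : ℝ) * (Q (W j) (H j) - Q (W j + 1) (H j)) =
          (fl δ (n j) : ℝ) / n j * a j := by
        simp only [ha]
        field_simp
      rw [e2] at t
      have t2 := t.trans p8
      have e3 : a j - (f x y - f (x + δ) y) / δ = (δ * a j - (f x y - f (x + δ) y)) / δ := by
        field_simp
      rw [e3, abs_div, abs_of_pos hδ, div_le_iff₀ hδ]
      have e4 : δ * a j - (f x y - f (x + δ) y) = (δ - (fl δ (n j) : ℝ) / n j) * a j -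
          (Q (W j) (H j) - Q (W j + fl δ (n j)) (H j) - (fl δ (n j) : ℝ) / n j * a j) +
          (Q (W j) (H j) - Q (W j + fl δ (n j)) (H j) - (f x y - f (x + δ) y)) := by ring
      rw [e4]
      have s1 := abs_add_le ((δ - (fl δ (n j) : ℝ) / n j) * a j -
          (Q (W j) (H j) - Q (W j + fl δ (n j)) (H j) - (fl δ (n j) : ℝ) / n j * a j))
          (Q (W j) (H j) - Q (W j + fl δ (n j)) (H j) - (f x y - f (x + δ) y))
      have s2 := abs_sub ((δ - (fl δ (n j) : ℝ) / n j) * a j)
          (Q (W j) (H j) - Q (W j + fl δ (n j)) (H j) - (fl δ (n j) : ℝ) / n j * a j)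
      have s3 : |(δ - (fl δ (n j) : ℝ) / n j) * a j| ≤
          |δ - (fl δ (n j) : ℝ) / n j| * (C1 / (y / 2)) := by
        rw [abs_mul, abs_of_nonneg p5.1]
        exact mul_le_mul_of_nonneg_left p5.2 (abs_nonneg _)
      have e5 : (C2 * f x y / y ^ 2 + 1) * δ * δ = δ ^ 2 * (C2 * f x y / y ^ 2) + δ ^ 2 := by ring
      rw [e5]
      linarith)
  have hgg : g' = g x y := by
    by_contra hne
    have hpos : 0 < |g' - g x y| := abs_pos.mpr (sub_ne_zero.mpr hne)
    obtain ⟨M, hM⟩ : ∃ M : ℝ, M = (C2 * f x y / y ^ 2 + 1) + C3 / y ^ 2 := ⟨_, rfl⟩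
    have hM0 : 0 < M := by rw [hM]; positivity
    obtain ⟨δ, hδ0, hδ1, hδ2⟩ : ∃ δ : ℝ, 0 < δ ∧ δ ≤ 1 ∧ M * δ < |g' - g x y| := by
      refine ⟨min 1 (|g' - g x y| / (2 * M)), by positivity, min_le_left _ _, ?_⟩
      calc M * min 1 (|g' - g x y| / (2 * M)) ≤ M * (|g' - g x y| / (2 * M)) := by
            gcongr
            exact min_le_right _ _
        _ = |g' - g x y| / 2 := by field_simp
        _ < |g' - g x y| := by linarith
    have q1 := hq δ hδ0 hδ1
    have q2 := h3 x (x + δ) y hx (by linarith) hy (by nlinarith) (by nlinarith)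
    have e1 : x + δ - x = δ := by ring
    rw [e1] at q2
    have q3 : |(f x y - f (x + δ) y) / δ - g x y| ≤ C3 / y ^ 2 * δ := by
      have e2 : (f x y - f (x + δ) y) / δ - g x y = -(f (x + δ) y - f x y + δ * g x y) / δ := by
        field_simp
        ring
      rw [e2, abs_div, abs_neg, abs_of_pos hδ0, div_le_iff₀ hδ0]
      refine q2.trans (le_of_eq ?_)
      rw [div_pow]
      ring
    have q4 := abs_sub_le g' ((f x y - f (x + δ) y) / δ) (g x y)
    have e3 : M * δ = (C2 * f x y / y ^ 2 + 1) * δ + C3 / y ^ 2 * δ := by rw [hM]; ring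
    rw [e3] at hδ2
    linarith
  rw [← hgg]
  exact hg'

/-- Convergence of the lattice derivatives in the height. -/
theorem gen_deriv' (hQ : Reg Q) (hf : IsLimit Q n f) (hg : IsD Q n g) {x y : ℝ} (hx : 0 < x)
    (hy : 0 < y) {W H : ℕ → ℕ} (hW : Tendsto (fun j => (W j : ℝ) / n j) atTop (𝓝 x))
    (hH : Tendsto (fun j => (H j : ℝ) / n j) atTop (𝓝 y)) :
    Tendsto (fun j => (n j : ℝ) * (Q (W j) (H j + 1) - Q (W j) (H j))) atTop (𝓝 (g y x)) := by
  have hn := hf.1
  have hnr : Tendsto (fun j => (n j : ℝ)) atTop atTop :=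
    (tendsto_natCast_atTop_atTop (R := ℝ)).comp hn
  have hninv : Tendsto (fun j => (n j : ℝ)⁻¹) atTop (𝓝 0) := hnr.inv_tendsto_atTop
  have hwW := seq_tendsto hn hx hW
  have h1 : Tendsto (fun j => ((H j + 1 : ℕ) : ℝ) / n j) atTop (𝓝 y) := by
    have := hH.add hninv
    rw [add_zero] at this
    refine this.congr fun j => ?_
    push_cast
    ring
  have h2 : Tendsto (fun j => ((W j - 1 : ℕ) : ℝ) / n j) atTop (𝓝 x) := by
    have := hW.sub hninv
    rw [sub_zero] at this
    refine this.congr' ?_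
    filter_upwards [hwW.eventually (eventually_ge_atTop 1)] with j hj
    rw [Nat.cast_sub hj]
    push_cast
    ring
  have h3 := gen_deriv hQ hf hg hy hx h1 h2
  refine h3.congr' ?_
  filter_upwards [hwW.eventually (eventually_ge_atTop 1)] with j hj
  obtain ⟨v, hv⟩ := Nat.exists_eq_add_of_le' hj
  have e1 := hQ.dual v (H j)
  have e2 := hQ.dual v (H j + 1)
  have e3 : W j - 1 = v := by omega
  rw [e3, hv]
  congr 1
  linarith

end Pool.Agent.U167.AR.Limit
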