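import Pool.Agent.U167.AR.Second
import Pool.Agent.U167.AR.Limit5
import Pool.Agent.TH291.NC.Rect

/-!
The crossing probabilities of rectangles satisfy the hypotheses of the limit theorems.
-/

set_option maxHeartbeats 1000000

namespace Pool.Agent.U167.AR

open H974 Finset Pool.Agent.W424.AR Limit

/-- Functions on the lattice which agree with the crossing probabilities for positive widths. -/
theorem reg_of {Q : ℕ → ℕ → ℝ} (h0 : ∀ w h, 0 ≤ Q w h) (h1 : ∀ w h, Q w h ≤ 1)
    (hQ : ∀ w h : ℕ, 1 ≤ w → Q w h = hh (1/2) w h) : Reg Q where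
  nonneg := h0
  le_one := h1
  dual := by
    intro w h
    rw [hQ (w + 1) h (by omega), hQ (h + 1) w (by omega)]
    have := dualhalf (w := (w:ℤ) + 1) (h := (h:ℤ)) (by omega) (by omega)
    rw [add_sub_cancel_right] at this
    push_cast
    linarith
  pos := by
    intro K hK
    obtain ⟨c, hc, -, hr⟩ := rsw K hK
    refine ⟨c, hc, ?_⟩
    intro w h hw hh' hwh
    rw [hQ w h hw]
    exact hr w h (by omega) (by omega) (by exact_mod_cast hwh)
  first := by
    intro K hK
    obtain ⟨c, C, hc, hC, ho⟩ := order K hK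
    refine ⟨c, C, hc, hC, ?_⟩
    intro w h hw hh' hwh
    rw [hQ w h hw, hQ (w + 1) h (by omega)]
    have := ho w h (by omega) (by omega) (by exact_mod_cast hwh)
    unfold DD at this
    push_cast at this ⊢
    exact this
  second := by
    intro K hK
    obtain ⟨C, hC, ho⟩ := second K hK
    refine ⟨C, hC, ?_⟩
    intro w h hw hh' hwh
    rw [hQ w h hw, hQ (w + 1) h (by omega), hQ (w + 2) h (by omega)]
    have := ho w h (by omega) (by omega) (by exact_mod_cast hwh)
    unfold SD at this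
    push_cast at this ⊢
    exact this

/-- Second differences in the height. -/
theorem second_height {Q : ℕ → ℕ → ℝ} (hQ : Reg Q) (K : ℕ) (hK : 1 ≤ K) : ∃ C : ℝ, 0 < C ∧
    ∀ w h : ℕ, 2 ≤ w → 1 ≤ h → w ≤ K * h →
      |Q w h - 2 * Q w (h + 1) + Q w (h + 2)| ≤ C * (1 - Q w h) / w ^ 2 := by
  obtain ⟨C, hC, hs⟩ := hQ.second K hK
  refine ⟨4 * C, by positivity, ?_⟩
  intro w h hw hh' hwh
  obtain ⟨v, rfl⟩ := Nat.exists_eq_add_of_le' (show 1 ≤ w by omega)
  have e1 := hQ.dual v h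
  have e2 := hQ.dual v (h + 1)
  have e3 := hQ.dual v (h + 2)
  have e4 : Q (v + 1) h - 2 * Q (v + 1) (h + 1) + Q (v + 1) (h + 2) =
      -(Q (h + 1) v - 2 * Q (h + 1 + 1) v + Q (h + 1 + 2) v) := by
    have : h + 1 + 2 = h + 2 + 1 := by ring
    rw [this]
    linarith
  have e5 : 1 - Q (v + 1) h = Q (h + 1) v := by linarith
  rw [e4, abs_neg, e5]
  have hq := hQ.nonneg (h + 1) v
  have h1 := hs (h + 1) v (by omega) (by omega) (by nlinarith)
  refine h1.trans ?_
  have hv : (1:ℝ) ≤ v := by exact_mod_cast (show 1 ≤ v by omega)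
  rw [div_le_div_iff₀ (by positivity) (by positivity)]
  push_cast
  have h2 : ((v:ℝ) + 1) ^ 2 ≤ 4 * (v:ℝ) ^ 2 := by nlinarith
  calc C * Q (h + 1) v * ((v:ℝ) + 1) ^ 2 ≤ C * Q (h + 1) v * (4 * (v:ℝ) ^ 2) := by gcongr
    _ = 4 * C * Q (h + 1) v * (v:ℝ) ^ 2 := by ring

end Pool.Agent.U167.AR
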