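import Mathlib

/-!
Functions on the lattice with bounds for the first and the second differences, and their scaling
limits.
-/

set_option maxHeartbeats 1000000

namespace Pool.Agent.U167.AR.Limit

open Filter Topology

/-- The properties of the crossing probabilities of rectangles which are used. -/
structure Reg (Q : ℕ → ℕ → ℝ) : Prop where
  nonneg : ∀ w h, 0 ≤ Q w h
  le_one : ∀ w h, Q w h ≤ 1
  dual : ∀ w h, Q (w + 1) h + Q (h + 1) w = 1
  pos : ∀ K : ℕ, 1 ≤ K → ∃ c : ℝ, 0 < c ∧ ∀ w h : ℕ, 1 ≤ w → 1 ≤ h → w ≤ K * h → c ≤ Q w h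
  first : ∀ K : ℕ, 1 ≤ K → ∃ c C : ℝ, 0 < c ∧ 0 < C ∧ ∀ w h : ℕ, 1 ≤ w → 1 ≤ h → h ≤ K * w →
    c * Q w h / h ≤ Q w h - Q (w + 1) h ∧ Q w h - Q (w + 1) h ≤ C * Q w h / h
  second : ∀ K : ℕ, 1 ≤ K → ∃ C : ℝ, 0 < C ∧ ∀ w h : ℕ, 1 ≤ w → 1 ≤ h → h ≤ K * w →
    |Q w h - 2 * Q (w + 1) h + Q (w + 2) h| ≤ C * Q w h / h ^ 2

/-- Discrete Taylor formula. -/
theorem taylor {q : ℕ → ℝ} {w : ℕ} {E : ℝ}
    (hE : ∀ i, w ≤ i → |q i - 2 * q (i + 1) + q (i + 2)| ≤ E) :
    (∀ k : ℕ, |(q (w + k) - q (w + k + 1)) - (q w - q (w + 1))| ≤ k * E) ∧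
    ∀ k : ℕ, |q w - q (w + k) - k * (q w - q (w + 1))| ≤ k ^ 2 * E := by
  have h1 : ∀ k : ℕ, |(q (w + k) - q (w + k + 1)) - (q w - q (w + 1))| ≤ k * E := by
    intro k
    induction k with
    | zero => simp
    | succ k ih =>
      have h2 := hE (w + k) (by omega)
      have e1 : w + (k + 1) = w + k + 1 := by ring
      rw [e1]
      have e2 : q (w + k + 1) - q (w + k + 1 + 1) - (q w - q (w + 1)) =
          (q (w + k) - q (w + k + 1) - (q w - q (w + 1))) -
            (q (w + k) - 2 * q (w + k + 1) + q (w + k + 2)) := by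
        have : w + k + 1 + 1 = w + k + 2 := by ring
        rw [this]; ring
      rw [e2]
      refine (abs_sub _ _).trans ?_
      push_cast
      linarith
  refine ⟨h1, ?_⟩
  have hE0 : 0 ≤ E := (abs_nonneg _).trans (hE w le_rfl)
  intro k
  induction k with
  | zero => simp
  | succ k ih =>
    have h2 := h1 k
    have e1 : w + (k + 1) = w + k + 1 := by ring
    rw [e1]
    have e2 : q w - q (w + k + 1) - ((k + 1 : ℕ) : ℝ) * (q w - q (w + 1)) =
        (q w - q (w + k) - k * (q w - q (w + 1))) +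
          ((q (w + k) - q (w + k + 1)) - (q w - q (w + 1))) := by
      push_cast; ring
    rw [e2]
    refine (abs_add_le _ _).trans ?_
    push_cast
    nlinarith [mul_nonneg (Nat.cast_nonneg (α := ℝ) k) hE0]

/-- Convergence of a sequence with good approximations. -/
theorem conv {a : ℕ → ℝ} {b : ℝ → ℝ} {C δ0 : ℝ} (hδ0 : 0 < δ0) (hC : 0 ≤ C)
    (h : ∀ δ, 0 < δ → δ ≤ δ0 → ∀ᶠ j in atTop, |a j - b δ| ≤ C * δ) :
    ∃ g, Tendsto a atTop (𝓝 g) ∧ ∀ δ, 0 < δ → δ ≤ δ0 → |g - b δ| ≤ C * δ := by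
  have hc : CauchySeq a := by
    rw [Metric.cauchySeq_iff']
    intro ε hε
    obtain ⟨δ, hδ1, hδ2, hδ3⟩ : ∃ δ : ℝ, 0 < δ ∧ δ ≤ δ0 ∧ 2 * (C * δ) < ε := by
      refine ⟨min δ0 (ε / (4 * (C + 1))), lt_min hδ0 (by positivity), min_le_left _ _, ?_⟩
      have h1 : min δ0 (ε / (4 * (C + 1))) ≤ ε / (4 * (C + 1)) := min_le_right _ _
      calc 2 * (C * min δ0 (ε / (4 * (C + 1)))) ≤ 2 * (C * (ε / (4 * (C + 1)))) := by gcongr
        _ = ε * (C / (2 * (C + 1))) := by field_simp; ring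
        _ < ε * 1 := by
          apply mul_lt_mul_of_pos_left _ hε
          rw [div_lt_one (by positivity)]
          linarith
        _ = ε := mul_one ε
    obtain ⟨N, hN⟩ := eventually_atTop.mp (h δ hδ1 hδ2)
    refine ⟨N, fun n hn => ?_⟩
    rw [Real.dist_eq]
    have h1 := hN n hn
    have h2 := hN N le_rfl
    have h3 : a n - a N = (a n - b δ) - (a N - b δ) := by ring
    rw [h3]
    refine lt_of_le_of_lt (abs_sub _ _) ?_
    linarith
  obtain ⟨g, hg⟩ := cauchySeq_tendsto_of_complete hc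
  refine ⟨g, hg, ?_⟩
  intro δ h1 h2
  exact le_of_tendsto ((hg.sub_const _).abs) (h δ h1 h2)

/-- `⌊x n⌋`. -/
noncomputable def fl (x : ℝ) (n : ℕ) : ℕ := ⌊x * n⌋₊

theorem fl_le {x : ℝ} (hx : 0 ≤ x) (n : ℕ) : (fl x n : ℝ) ≤ x * n :=
  Nat.floor_le (by positivity)

theorem lt_fl (x : ℝ) (n : ℕ) : x * n < fl x n + 1 := Nat.lt_floor_add_one _

theorem fl_mono {x x' : ℝ} (h : x ≤ x') (n : ℕ) : fl x n ≤ fl x' n :=
  Nat.floor_le_floor (mul_le_mul_of_nonneg_right h (Nat.cast_nonneg n))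

theorem fl_tendsto {x : ℝ} (hx : 0 < x) {n : ℕ → ℕ} (hn : Tendsto n atTop atTop) :
    Tendsto (fun j => fl x (n j)) atTop atTop :=
  tendsto_nat_floor_atTop.comp (((tendsto_natCast_atTop_atTop (R := ℝ)).comp hn).const_mul_atTop hx)

theorem fl_div {x : ℝ} (hx : 0 < x) {n : ℕ → ℕ} (hn : Tendsto n atTop atTop) :
    Tendsto (fun j => (fl x (n j) : ℝ) / n j) atTop (𝓝 x) := by
  have hnr : Tendsto (fun j => (n j : ℝ)) atTop atTop :=
    (tendsto_natCast_atTop_atTop (R := ℝ)).comp hn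
  have h1 : Tendsto (fun j => x - 1 / (n j : ℝ)) atTop (𝓝 x) := by
    have : Tendsto (fun j => 1 / (n j : ℝ)) atTop (𝓝 0) := by
      simp only [one_div]
      exact hnr.inv_tendsto_atTop
    simpa using this.const_sub x
  refine tendsto_of_tendsto_of_tendsto_of_le_of_le' h1 (tendsto_const_nhds (x := x)) ?_ ?_
  · filter_upwards [hn.eventually (eventually_ge_atTop 1)] with j hj
    have hj' : (0:ℝ) < n j := by exact_mod_cast hj
    rw [le_div_iff₀ hj']
    have := lt_fl x (n j)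
    have e : (x - 1 / (n j : ℝ)) * n j = x * n j - 1 := by field_simp
    rw [e]
    linarith
  · filter_upwards [hn.eventually (eventually_ge_atTop 1)] with j hj
    have hj' : (0:ℝ) < n j := by exact_mod_cast hj
    rw [div_le_iff₀ hj']
    exact fl_le hx.le _

/-- Aspect ratios of the rounded rectangles. -/
theorem fl_asp {x y : ℝ} {K : ℕ} (_hx : 0 < x) (hy : 0 < y) (hxy : y ≤ K * x) {n : ℕ}
    (h1 : 1 ≤ fl x n) : fl y n ≤ 2 * K * fl x n := by
  have h2 := fl_le hy.le n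
  have h3 := lt_fl x n
  have h4 : (1:ℝ) ≤ fl x n := by exact_mod_cast h1
  have hK : (0:ℝ) ≤ K := Nat.cast_nonneg K
  have h5 : (fl y n : ℝ) ≤ 2 * K * fl x n := by
    calc (fl y n : ℝ) ≤ y * n := h2
      _ ≤ K * x * n := mul_le_mul_of_nonneg_right hxy (Nat.cast_nonneg n)
      _ = K * (x * n) := by ring
      _ ≤ K * (2 * fl x n) := mul_le_mul_of_nonneg_left (by linarith) hK
      _ = 2 * K * fl x n := by ring
  exact_mod_cast h5

/-- `f` is a scaling limit of `Q` along the sizes `n j`. -/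
def IsLimit (Q : ℕ → ℕ → ℝ) (n : ℕ → ℕ) (f : ℝ → ℝ → ℝ) : Prop :=
  Tendsto n atTop atTop ∧ ∀ x y : ℝ, 0 < x → 0 < y →
    Tendsto (fun j => Q (fl x (n j)) (fl y (n j))) atTop (𝓝 (f x y))

section

variable {Q : ℕ → ℕ → ℝ}

theorem Reg.anti (hQ : Reg Q) {w w' h : ℕ} (h1 : 1 ≤ w) (h2 : w ≤ w') (h3 : 1 ≤ h) :
    Q w' h ≤ Q w h := by
  obtain ⟨c, C, hc, -, hf⟩ := hQ.first h h3
  induction w', h2 using Nat.le_induction with
  | base => exact le_rfl
  | succ v hv ih =>
    have h4 := (hf v h (by omega) h3 (by nlinarith)).1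
    have h5 : 0 ≤ c * Q v h / h := by
      have := hQ.nonneg v h
      positivity
    linarith

/-- Quantitative first order expansion on the lattice. -/
theorem Reg.expand (hQ : Reg Q) (K : ℕ) (hK : 1 ≤ K) : ∃ C : ℝ, 0 < C ∧
    ∀ (x x' y : ℝ) (n : ℕ), 0 < x → x ≤ x' → 0 < y → y ≤ K * x → 1 ≤ fl x n → 1 ≤ fl y n →
    |Q (fl x n) (fl y n) - Q (fl x' n) (fl y n) - (x' - x) *
        (n * (Q (fl x n) (fl y n) - Q (fl x n + 1) (fl y n)))| ≤
      C * Q (fl x n) (fl y n) * (((x' - x) * n + 1) / fl y n) ^ 2 +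
        C / fl y n ∧
    |n * (Q (fl x n) (fl y n) - Q (fl x n + 1) (fl y n)) -
      n * (Q (fl x' n) (fl y n) - Q (fl x' n + 1) (fl y n))| ≤
      C * Q (fl x n) (fl y n) * (((x' - x) * n + 1) * n / fl y n ^ 2) := by
  obtain ⟨c1, C1, hc1, hC1, hf⟩ := hQ.first (2 * K) (by omega)
  obtain ⟨C2, hC2, hs⟩ := hQ.second (2 * K) (by omega)
  refine ⟨max C1 C2, lt_max_of_lt_left hC1, ?_⟩
  intro x x' y n hx hxx hy hyx h1 h2
  have hasp := fl_asp hx hy hyx h1
  have hmono := fl_mono hxx n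
  have u1 := fl_le hx.le n
  have u2 := lt_fl x n
  have u3 := fl_le (hx.le.trans hxx) n
  have u4 := lt_fl x' n
  have hxn : 0 ≤ (x' - x) * n := mul_nonneg (by linarith) (Nat.cast_nonneg n)
  obtain ⟨w, hw⟩ : ∃ w, w = fl x n := ⟨_, rfl⟩
  obtain ⟨w', hw'⟩ : ∃ w, w = fl x' n := ⟨_, rfl⟩
  obtain ⟨h, hh⟩ : ∃ w, w = fl y n := ⟨_, rfl⟩
  rw [← hw, ← hw', ← hh]
  rw [← hw] at h1 hasp u1 u2 hmono
  rw [← hw'] at u3 u4 hmono
  rw [← hh] at hasp h2
  obtain ⟨k, rfl⟩ := Nat.exists_eq_add_of_le hmono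
  push_cast at u3 u4
  have hhr : (1:ℝ) ≤ h := by exact_mod_cast h2
  have hq0 := hQ.nonneg w h
  have hE : ∀ i, w ≤ i → |Q i h - 2 * Q (i + 1) h + Q (i + 2) h| ≤ C2 * Q w h / h ^ 2 := by
    intro i hi
    refine (hs i h (by omega) h2 (hasp.trans (Nat.mul_le_mul_left _ hi))).trans ?_
    have := hQ.anti h1 hi h2
    gcongr
  obtain ⟨t1, t2⟩ := taylor (q := fun i => Q i h) hE
  have t1 := t1 k
  have t2 := t2 k
  have hk0 : (0:ℝ) ≤ k := Nat.cast_nonneg k
  have hk1 : (k:ℝ) ≤ (x' - x) * n + 1 := by nlinarith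
  have hk2 : (x' - x) * n - 1 ≤ k := by nlinarith
  have hn0 : (0:ℝ) ≤ n := Nat.cast_nonneg n
  obtain ⟨f1, f2⟩ := hf w h h1 h2 hasp
  have hD0 : 0 ≤ Q w h - Q (w + 1) h := by
    have : 0 ≤ c1 * Q w h / h := by positivity
    linarith
  have hD1 : Q w h - Q (w + 1) h ≤ C1 / h := by
    refine f2.trans ?_
    have := hQ.le_one w h
    gcongr
    nlinarith
  constructor
  · have e : Q w h - Q (w + k) h - (x' - x) * (n * (Q w h - Q (w + 1) h)) =
        (Q w h - Q (w + k) h - k * (Q w h - Q (w + 1) h)) +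
          (k - (x' - x) * n) * (Q w h - Q (w + 1) h) := by ring
    rw [e]
    refine (abs_add_le _ _).trans (add_le_add ?_ ?_)
    · refine t2.trans ?_
      calc (k:ℝ) ^ 2 * (C2 * Q w h / h ^ 2) ≤ ((x' - x) * n + 1) ^ 2 *
            (max C1 C2 * Q w h / h ^ 2) := by
            gcongr
            exact le_max_right _ _
        _ = max C1 C2 * Q w h * (((x' - x) * n + 1) / h) ^ 2 := by
            rw [div_pow]; ring
    · rw [abs_mul, abs_of_nonneg hD0]
      have h3 : |(k:ℝ) - (x' - x) * n| ≤ 1 := by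
        rw [abs_le]; constructor <;> linarith
      calc |(k:ℝ) - (x' - x) * n| * (Q w h - Q (w + 1) h) ≤ 1 * (C1 / h) := by
            apply mul_le_mul h3 hD1 hD0 zero_le_one
        _ ≤ max C1 C2 / h := by
            rw [one_mul]
            gcongr
            exact le_max_left _ _
  · have e : (n:ℝ) * (Q w h - Q (w + 1) h) - n * (Q (w + k) h - Q (w + k + 1) h) =
        -(n * ((Q (w + k) h - Q (w + k + 1) h) - (Q w h - Q (w + 1) h))) := by ring
    rw [e, abs_neg, abs_mul, abs_of_nonneg hn0]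
    calc (n:ℝ) * |(Q (w + k) h - Q (w + k + 1) h) - (Q w h - Q (w + 1) h)| ≤
          n * (k * (C2 * Q w h / h ^ 2)) := mul_le_mul_of_nonneg_left t1 hn0
      _ ≤ n * (((x' - x) * n + 1) * (max C1 C2 * Q w h / h ^ 2)) := by
          gcongr
          exact le_max_right _ _
      _ = max C1 C2 * Q w h * (((x' - x) * n + 1) * n / h ^ 2) := by ring

/-- A limit of the lattice derivatives. -/
theorem lim_deriv (hQ : Reg Q) {n : ℕ → ℕ} {f : ℝ → ℝ → ℝ} (hf : IsLimit Q n f) (K : ℕ)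
    (hK : 1 ≤ K) : ∃ C : ℝ, 0 < C ∧ ∀ x y : ℝ, 0 < x → 0 < y → y ≤ K * x →
    ∃ g : ℝ, Tendsto (fun j => (n j : ℝ) *
      (Q (fl x (n j)) (fl y (n j)) - Q (fl x (n j) + 1) (fl y (n j)))) atTop (𝓝 g) ∧
      ∀ x', x ≤ x' → |f x y - f x' y - (x' - x) * g| ≤ C * f x y * ((x' - x) / y) ^ 2 := by
  obtain ⟨C, hC, he⟩ := hQ.expand K hK
  refine ⟨C, hC, ?_⟩
  intro x y hx hy hxy
  obtain ⟨hn, hlim⟩ := hf
  have hnr : Tendsto (fun j => (n j : ℝ)) atTop atTop :=
    (tendsto_natCast_atTop_atTop (R := ℝ)).comp hn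
  have hninv : Tendsto (fun j => (n j : ℝ)⁻¹) atTop (𝓝 0) := hnr.inv_tendsto_atTop
  set a : ℕ → ℝ := fun j => (n j : ℝ) *
    (Q (fl x (n j)) (fl y (n j)) - Q (fl x (n j) + 1) (fl y (n j))) with ha
  have hyd := fl_div hy hn
  -- the error terms
  have herr : ∀ x', x ≤ x' → Tendsto (fun j => C * Q (fl x (n j)) (fl y (n j)) *
      (((x' - x) * n j + 1) / fl y (n j)) ^ 2 + C / fl y (n j)) atTop
      (𝓝 (C * f x y * ((x' - x) / y) ^ 2)) := by
    intro x' _
    have h1 : Tendsto (fun j => ((x' - x) * n j + 1) / (fl y (n j) : ℝ)) atTop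
        (𝓝 ((x' - x) / y)) := by
      have h2 : Tendsto (fun j => ((x' - x) + (n j : ℝ)⁻¹) / ((fl y (n j) : ℝ) / n j)) atTop
          (𝓝 (((x' - x) + 0) / y)) := (hninv.const_add (x' - x)).div hyd hy.ne'
      rw [add_zero] at h2
      refine h2.congr' ?_
      filter_upwards [hn.eventually (eventually_ge_atTop 1)] with j hj
      have hj' : (n j : ℝ) ≠ 0 := by
        have : 0 < n j := hj
        positivity
      field_simp
    have h3 : Tendsto (fun j => C / (fl y (n j) : ℝ)) atTop (𝓝 0) :=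
      ((tendsto_natCast_atTop_atTop (R := ℝ)).comp (fl_tendsto hy hn)).const_div_atTop C
    have h4 := ((((hlim x y hx hy).const_mul C)).mul (h1.pow 2)).add h3
    rw [add_zero] at h4
    exact h4
  have hfl : ∀ᶠ j in atTop, 1 ≤ fl x (n j) ∧ 1 ≤ fl y (n j) :=
    ((fl_tendsto hx hn).eventually (eventually_ge_atTop 1)).and
      ((fl_tendsto hy hn).eventually (eventually_ge_atTop 1))
  have hfnn : 0 ≤ f x y := ge_of_tendsto' (hlim x y hx hy) (fun j => hQ.nonneg _ _)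
  -- convergence
  obtain ⟨g, hg, -⟩ := conv (a := a) (b := fun δ => (f x y - f (x + δ) y) / δ)
    (C := C * f x y / y ^ 2 + 1) (δ0 := 1) one_pos (by positivity) (by
      intro δ h1 _
      have hx' : 0 < x + δ := by linarith
      have h3 := herr (x + δ) (by linarith)
      have h4 : Tendsto (fun j => (Q (fl x (n j)) (fl y (n j)) -
          Q (fl (x + δ) (n j)) (fl y (n j))) - (f x y - f (x + δ) y)) atTop (𝓝 0) := by
        have := ((hlim x y hx hy).sub (hlim (x + δ) y hx' hy)).sub_const (f x y - f (x + δ) y)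
        simpa using this
      have h5 := h3.eventually (eventually_le_nhds (b := C * f x y * ((x + δ - x) / y) ^ 2 +
        δ ^ 2 / 2) (by
          have : 0 < δ ^ 2 := by positivity
          linarith))
      have h6 := h4.abs.eventually (eventually_le_nhds (b := δ ^ 2 / 2) (by
        rw [abs_zero]; positivity))
      filter_upwards [h5, h6, hfl] with j j1 j2 j3
      have h7 := (he x (x + δ) y (n j) hx (by linarith) hy hxy j3.1 j3.2).1
      have e1 : x + δ - x = δ := by ring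
      rw [e1] at h7 j1
      have h8 : |(f x y - f (x + δ) y) - δ * a j| ≤ C * f x y * (δ / y) ^ 2 + δ ^ 2 := by
        have e2 : (f x y - f (x + δ) y) - δ * a j =
            (Q (fl x (n j)) (fl y (n j)) - Q (fl (x + δ) (n j)) (fl y (n j)) - δ * a j) -
            ((Q (fl x (n j)) (fl y (n j)) -
              Q (fl (x + δ) (n j)) (fl y (n j))) - (f x y - f (x + δ) y)) := by ring
        rw [e2]
        refine (abs_sub _ _).trans ?_
        have := h7.trans j1
        linarith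
      have e3 : a j - (f x y - f (x + δ) y) / δ = -((f x y - f (x + δ) y) - δ * a j) / δ := by
        field_simp
        ring
      rw [e3, abs_div, abs_neg, abs_of_pos h1, div_le_iff₀ h1]
      refine h8.trans (le_of_eq ?_)
      field_simp)
  refine ⟨g, hg, ?_⟩
  intro x' hxx
  have h1 : Tendsto (fun j => |Q (fl x (n j)) (fl y (n j)) - Q (fl x' (n j)) (fl y (n j)) -
      (x' - x) * a j|) atTop (𝓝 |f x y - f x' y - (x' - x) * g|) :=
    ((((hlim x y hx hy).sub (hlim x' y (by linarith) hy)).sub (hg.const_mul (x' - x)))).abs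
  refine le_of_tendsto_of_tendsto h1 (herr x' hxx) ?_
  filter_upwards [hfl] with j j3
  exact (he x x' y (n j) hx hxx hy hxy j3.1 j3.2).1

end

end Pool.Agent.U167.AR.Limit
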