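import Pool.Agent.U167.AR.Limit

/-!
Scaling limits of functions on the lattice with bounded second differences: regularity.
-/

set_option maxHeartbeats 1000000

namespace Pool.Agent.U167.AR.Limit

open Filter Topology Asymptotics

variable {Q : ℕ → ℕ → ℝ}

/-- The lattice derivatives in the width converge to `g`. -/
def IsD (Q : ℕ → ℕ → ℝ) (n : ℕ → ℕ) (g : ℝ → ℝ → ℝ) : Prop :=
  ∀ x y : ℝ, 0 < x → 0 < y → Tendsto (fun j => (n j : ℝ) *
      (Q (fl x (n j)) (fl y (n j)) - Q (fl x (n j) + 1) (fl y (n j)))) atTop (𝓝 (g x y))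

theorem exists_K {x y : ℝ} (hx : 0 < x) : ∃ K : ℕ, 1 ≤ K ∧ y ≤ K * x := by
  refine ⟨⌈y / x⌉₊ + 1, by omega, ?_⟩
  have h1 := Nat.le_ceil (y / x)
  rw [div_le_iff₀ hx] at h1
  push_cast
  nlinarith

theorem exists_D (hQ : Reg Q) {n : ℕ → ℕ} {f : ℝ → ℝ → ℝ} (hf : IsLimit Q n f) :
    ∃ g, IsD Q n g := by
  have h : ∀ x y : ℝ, ∃ g : ℝ, 0 < x → 0 < y → Tendsto (fun j => (n j : ℝ) *
      (Q (fl x (n j)) (fl y (n j)) - Q (fl x (n j) + 1) (fl y (n j)))) atTop (𝓝 g) := by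
    intro x y
    by_cases hx : 0 < x
    · by_cases hy : 0 < y
      · obtain ⟨K, hK, hyx⟩ := exists_K (y := y) hx
        obtain ⟨C, -, h⟩ := lim_deriv hQ hf K hK
        obtain ⟨g, hg, -⟩ := h x y hx hy hyx
        exact ⟨g, fun _ _ => hg⟩
      · exact ⟨0, fun _ h => absurd h hy⟩
    · exact ⟨0, fun h => absurd h hx⟩
  choose g hg using h
  exact ⟨g, fun x y hx hy => hg x y hx hy⟩

section

variable {n : ℕ → ℕ} {f g : ℝ → ℝ → ℝ}

theorem nonneg_f (hQ : Reg Q) (hf : IsLimit Q n f) {x y : ℝ} (hx : 0 < x) (hy : 0 < y) :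
    0 ≤ f x y := ge_of_tendsto' (hf.2 x y hx hy) (fun _ => hQ.nonneg _ _)

theorem le_one_f (hQ : Reg Q) (hf : IsLimit Q n f) {x y : ℝ} (hx : 0 < x) (hy : 0 < y) :
    f x y ≤ 1 := le_of_tendsto' (hf.2 x y hx hy) (fun _ => hQ.le_one _ _)

theorem T1 (hQ : Reg Q) (hf : IsLimit Q n f) (hg : IsD Q n g) (K : ℕ) (hK : 1 ≤ K) :
    ∃ C : ℝ, 0 < C ∧ ∀ x x' y : ℝ, 0 < x → x ≤ x' → 0 < y → y ≤ K * x →
      |f x y - f x' y - (x' - x) * g x y| ≤ C * f x y * ((x' - x) / y) ^ 2 := by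
  obtain ⟨C, hC, h⟩ := lim_deriv hQ hf K hK
  refine ⟨C, hC, ?_⟩
  intro x x' y hx hxx hy hyx
  obtain ⟨g', h1, h2⟩ := h x y hx hy hyx
  have h3 := tendsto_nhds_unique h1 (hg x y hx hy)
  rw [← h3]
  exact h2 x' hxx

theorem hfl (hn : Tendsto n atTop atTop) {x y : ℝ} (hx : 0 < x) (hy : 0 < y) :
    ∀ᶠ j in atTop, 1 ≤ fl x (n j) ∧ 1 ≤ fl y (n j) :=
  ((fl_tendsto hx hn).eventually (eventually_ge_atTop 1)).and
    ((fl_tendsto hy hn).eventually (eventually_ge_atTop 1))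

theorem T2 (hQ : Reg Q) (hf : IsLimit Q n f) (hg : IsD Q n g) (K : ℕ) (hK : 1 ≤ K) :
    ∃ C : ℝ, 0 < C ∧ ∀ x x' y : ℝ, 0 < x → x ≤ x' → 0 < y → y ≤ K * x →
      |g x y - g x' y| ≤ C * f x y * ((x' - x) / y ^ 2) := by
  obtain ⟨C, hC, he⟩ := hQ.expand K hK
  refine ⟨C, hC, ?_⟩
  intro x x' y hx hxx hy hyx
  obtain ⟨hn, hlim⟩ := hf
  have hnr : Tendsto (fun j => (n j : ℝ)) atTop atTop :=
    (tendsto_natCast_atTop_atTop (R := ℝ)).comp hn
  have hninv : Tendsto (fun j => (n j : ℝ)⁻¹) atTop (𝓝 0) := hnr.inv_tendsto_atTop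
  have hyd := fl_div hy hn
  have h1 : Tendsto (fun j => C * Q (fl x (n j)) (fl y (n j)) *
      (((x' - x) * n j + 1) * n j / (fl y (n j) : ℝ) ^ 2)) atTop
      (𝓝 (C * f x y * ((x' - x) / y ^ 2))) := by
    have h2 : Tendsto (fun j => ((x' - x) + (n j : ℝ)⁻¹) / ((fl y (n j) : ℝ) / n j) ^ 2) atTop
        (𝓝 (((x' - x) + 0) / y ^ 2)) :=
      (hninv.const_add (x' - x)).div (hyd.pow 2) (by positivity)
    rw [add_zero] at h2
    refine ((hlim x y hx hy).const_mul C).mul (h2.congr' ?_)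
    filter_upwards [hn.eventually (eventually_ge_atTop 1)] with j hj
    have hj' : (n j : ℝ) ≠ 0 := by
      have : 0 < n j := hj
      positivity
    field_simp
  have h3 := ((hg x y hx hy).sub (hg x' y (by linarith) hy)).abs
  refine le_of_tendsto_of_tendsto h3 h1 ?_
  filter_upwards [hfl hn hx hy] with j hj
  exact (he x x' y (n j) hx hxx hy hyx hj.1 hj.2).2

theorem T0 (hQ : Reg Q) (hf : IsLimit Q n f) (hg : IsD Q n g) (K : ℕ) (hK : 1 ≤ K) :
    ∃ c C : ℝ, 0 < c ∧ 0 < C ∧ ∀ x y : ℝ, 0 < x → 0 < y → y ≤ K * x →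
      c * f x y / y ≤ g x y ∧ g x y ≤ C * f x y / y := by
  obtain ⟨c, C, hc, hC, he⟩ := hQ.first (2 * K) (by omega)
  refine ⟨c, C, hc, hC, ?_⟩
  intro x y hx hy hyx
  obtain ⟨hn, hlim⟩ := hf
  have hyd := fl_div hy hn
  have h0 : ∀ a : ℝ, Tendsto (fun j => (a * Q (fl x (n j)) (fl y (n j))) /
      ((fl y (n j) : ℝ) / n j)) atTop (𝓝 (a * f x y / y)) := fun a =>
    ((hlim x y hx hy).const_mul a).div hyd hy.ne'
  have hev : ∀ᶠ j in atTop, 1 ≤ n j ∧ 1 ≤ fl x (n j) ∧ 1 ≤ fl y (n j) :=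
    (hn.eventually (eventually_ge_atTop 1)).and (hfl hn hx hy)
  constructor
  · refine le_of_tendsto_of_tendsto (h0 c) (hg x y hx hy) ?_
    filter_upwards [hev] with j hj
    have h1 := (he _ _ hj.2.1 hj.2.2 (fl_asp hx hy hyx hj.2.1)).1
    have h2 : (0:ℝ) < n j := by exact_mod_cast hj.1
    have h3 : (0:ℝ) < fl y (n j) := by exact_mod_cast hj.2.2
    have h4 := mul_le_mul_of_nonneg_left h1 h2.le
    refine le_trans (le_of_eq ?_) h4
    field_simp
  · refine le_of_tendsto_of_tendsto (hg x y hx hy) (h0 C) ?_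
    filter_upwards [hev] with j hj
    have h1 := (he _ _ hj.2.1 hj.2.2 (fl_asp hx hy hyx hj.2.1)).2
    have h2 : (0:ℝ) < n j := by exact_mod_cast hj.1
    have h3 : (0:ℝ) < fl y (n j) := by exact_mod_cast hj.2.2
    have h4 := mul_le_mul_of_nonneg_left h1 h2.le
    refine le_trans h4 (le_of_eq ?_)
    field_simp

theorem dual_f (hQ : Reg Q) (hf : IsLimit Q n f) (hg : IsD Q n g) {x y : ℝ} (hx : 0 < x)
    (hy : 0 < y) : f x y + f y x = 1 := by
  obtain ⟨hn, hlim⟩ := hf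
  have hnr : Tendsto (fun j => (n j : ℝ)) atTop atTop :=
    (tendsto_natCast_atTop_atTop (R := ℝ)).comp hn
  have hninv : Tendsto (fun j => (n j : ℝ)⁻¹) atTop (𝓝 0) := hnr.inv_tendsto_atTop
  have key : ∀ x y : ℝ, 0 < x → 0 < y →
      Tendsto (fun j => Q (fl x (n j) + 1) (fl y (n j))) atTop (𝓝 (f x y)) := by
    intro x y hx hy
    have h1 := (hlim x y hx hy).sub (hninv.mul (hg x y hx hy))
    rw [zero_mul, sub_zero] at h1
    refine h1.congr' ?_
    filter_upwards [hn.eventually (eventually_ge_atTop 1)] with j hj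
    have hj' : (n j : ℝ) ≠ 0 := by
      have : 0 < n j := hj
      positivity
    field_simp
    ring
  have h2 := (key x y hx hy).add (key y x hy hx)
  have h3 : (fun j => Q (fl x (n j) + 1) (fl y (n j)) + Q (fl y (n j) + 1) (fl x (n j))) =
      fun _ => (1:ℝ) := by
    funext j
    exact hQ.dual _ _
  rw [h3] at h2
  exact (tendsto_nhds_unique h2 tendsto_const_nhds)

theorem pos_f (hQ : Reg Q) (hf : IsLimit Q n f) {x y : ℝ} (hx : 0 < x) (hy : 0 < y) :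
    0 < f x y := by
  obtain ⟨K, hK, hyx⟩ := exists_K (y := x) hy
  obtain ⟨c, hc, h⟩ := hQ.pos (2 * K) (by omega)
  refine lt_of_lt_of_le hc (ge_of_tendsto (hf.2 x y hx hy) ?_)
  filter_upwards [hfl hf.1 hx hy] with j hj
  exact h _ _ hj.1 hj.2 (fl_asp hy hx hyx hj.2)

/-- Quadratic approximation on both sides. -/
theorem quad (hQ : Reg Q) (hf : IsLimit Q n f) (hg : IsD Q n g) (K : ℕ) (hK : 1 ≤ K) :
    ∃ C : ℝ, 0 < C ∧ ∀ x x' y : ℝ, 0 < x → 0 < x' → 0 < y → y ≤ K * x → y ≤ K * x' →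
      |f x' y - f x y + (x' - x) * g x y| ≤ C * ((x' - x) / y) ^ 2 := by
  obtain ⟨C1, hC1, h1⟩ := T1 hQ hf hg K hK
  obtain ⟨C2, hC2, h2⟩ := T2 hQ hf hg K hK
  refine ⟨C1 + C2, by positivity, ?_⟩
  intro x x' y hx hx' hy hyx hyx'
  have hf1 := le_one_f hQ hf hx hy
  have hf1' := le_one_f hQ hf hx' hy
  have hf0 := nonneg_f hQ hf hx hy
  have hf0' := nonneg_f hQ hf hx' hy
  have hsq : 0 ≤ ((x' - x) / y) ^ 2 := sq_nonneg _
  rcases le_total x x' with h | h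
  · have h3 := h1 x x' y hx h hy hyx
    have e : f x' y - f x y + (x' - x) * g x y = -(f x y - f x' y - (x' - x) * g x y) := by ring
    rw [e, abs_neg]
    refine h3.trans ?_
    have : C1 * f x y ≤ C1 + C2 := by nlinarith
    exact mul_le_mul_of_nonneg_right this hsq
  · have h3 := h1 x' x y hx' h hy hyx'
    have h4 := h2 x' x y hx' h hy hyx'
    have e : f x' y - f x y + (x' - x) * g x y =
        (f x' y - f x y - (x - x') * g x' y) + (x - x') * (g x' y - g x y) := by ring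
    rw [e]
    refine (abs_add_le _ _).trans ?_
    rw [abs_mul, abs_of_nonneg (by linarith : 0 ≤ x - x')]
    have e2 : ((x - x') / y) ^ 2 = ((x' - x) / y) ^ 2 := by
      rw [div_pow, div_pow]; congr 1; ring
    rw [e2] at h3
    have h5 : (x - x') * |g x' y - g x y| ≤ (x - x') * (C2 * f x' y * ((x - x') / y ^ 2)) :=
      mul_le_mul_of_nonneg_left h4 (by linarith)
    have e3 : (x - x') * (C2 * f x' y * ((x - x') / y ^ 2)) = C2 * f x' y * ((x' - x) / y) ^ 2 := by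
      rw [div_pow]; ring
    rw [e3] at h5
    have h6 : C1 * f x' y * ((x' - x) / y) ^ 2 ≤ C1 * ((x' - x) / y) ^ 2 :=
      mul_le_mul_of_nonneg_right (by nlinarith) hsq
    have h7 : C2 * f x' y * ((x' - x) / y) ^ 2 ≤ C2 * ((x' - x) / y) ^ 2 :=
      mul_le_mul_of_nonneg_right (by nlinarith) hsq
    linarith

theorem hasDeriv1 (hQ : Reg Q) (hf : IsLimit Q n f) (hg : IsD Q n g) {x y : ℝ} (hx : 0 < x)
    (hy : 0 < y) : HasDerivAt (fun s => f s y) (-g x y) x := by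
  obtain ⟨K, hK, hyx⟩ := exists_K (x := x / 2) (y := y) (by linarith)
  obtain ⟨C, hC, h⟩ := quad hQ hf hg K hK
  rw [hasDerivAt_iff_isLittleO]
  have h1 : (fun x' => f x' y - f x y - (x' - x) • -g x y) =O[𝓝 x] (fun x' => ‖x' - x‖ ^ 2) := by
    refine IsBigO.of_bound (C / y ^ 2) ?_
    filter_upwards [eventually_ge_nhds (show x / 2 < x by linarith)] with x' hx'
    have hK0 : (0:ℝ) ≤ K := Nat.cast_nonneg K
    have h2 := h x x' y hx (by linarith) hy (by nlinarith) (by nlinarith)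
    rw [smul_eq_mul, Real.norm_eq_abs]
    have e1 : f x' y - f x y - (x' - x) * -g x y = f x' y - f x y + (x' - x) * g x y := by ring
    rw [e1]
    refine h2.trans (le_of_eq ?_)
    rw [Real.norm_eq_abs, abs_of_nonneg (by positivity), Real.norm_eq_abs, sq_abs, div_pow]
    ring
  exact h1.trans_isLittleO (isLittleO_pow_sub_sub x one_lt_two)

theorem hasDeriv2 (hQ : Reg Q) (hf : IsLimit Q n f) (hg : IsD Q n g) {x y : ℝ} (hx : 0 < x)
    (hy : 0 < y) : HasDerivAt (fun s => f x s) (g y x) y := by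
  have h1 := (hasDeriv1 hQ hf hg hy hx).const_sub 1
  rw [neg_neg] at h1
  refine h1.congr_of_eventuallyEq ?_
  filter_upwards [eventually_gt_nhds hy] with s hs
  have := dual_f hQ hf hg hx hs
  linarith

/-- Lipschitz bound in the first variable. -/
theorem lip1 (hQ : Reg Q) (hf : IsLimit Q n f) (hg : IsD Q n g) (K : ℕ) (hK : 1 ≤ K) :
    ∃ C : ℝ, 0 < C ∧ ∀ x x' y : ℝ, 0 < x → 0 < x' → 0 < y → y ≤ K * x → y ≤ K * x' →
      |f x' y - f x y| ≤ C / y * |x' - x| := by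
  obtain ⟨c, C, hc, hC, h⟩ := T0 hQ hf hg K hK
  refine ⟨C, hC, ?_⟩
  intro x x' y hx hx' hy hyx hyx'
  have hmin : 0 < min x x' := lt_min hx hx'
  have key := Convex.norm_image_sub_le_of_norm_hasDerivWithin_le (𝕜 := ℝ) (f := fun s => f s y)
    (f' := fun s => -g s y) (C := C / y) (s := Set.Ici (min x x')) (x := x) (y := x')
    (fun s hs => (hasDeriv1 hQ hf hg (lt_of_lt_of_le hmin hs) hy).hasDerivWithinAt) (by
      intro s hs
      have hs0 : 0 < s := lt_of_lt_of_le hmin hs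
      have hK0 : (0:ℝ) ≤ K := Nat.cast_nonneg K
      have hys : y ≤ K * s := by
        have h1 : y ≤ K * min x x' := by
          rcases le_total x x' with h2 | h2
          · rw [min_eq_left h2]; exact hyx
          · rw [min_eq_right h2]; exact hyx'
        exact h1.trans (mul_le_mul_of_nonneg_left hs hK0)
      obtain ⟨h1, h2⟩ := h s y hs0 hy hys
      have h3 := nonneg_f hQ hf hs0 hy
      have h4 := le_one_f hQ hf hs0 hy
      rw [norm_neg, Real.norm_eq_abs, abs_of_nonneg (le_trans (by positivity) h1)]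
      refine h2.trans ?_
      gcongr
      nlinarith) (convex_Ici _) (Set.mem_Ici.mpr (min_le_left _ _)) (Set.mem_Ici.mpr (min_le_right _ _))
  rw [Real.norm_eq_abs, Real.norm_eq_abs] at key
  exact key

theorem cont_f (hQ : Reg Q) (hf : IsLimit Q n f) (hg : IsD Q n g) {x y : ℝ} (hx : 0 < x)
    (hy : 0 < y) : ContinuousAt (fun p : ℝ × ℝ => f p.1 p.2) (x, y) := by
  obtain ⟨K1, hK1, hyx⟩ := exists_K (x := x / 2) (y := 2 * y) (by linarith)
  obtain ⟨C1, hC1, h1⟩ := lip1 hQ hf hg K1 hK1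
  have hc2 : ContinuousAt (fun p : ℝ × ℝ => f x p.2) (x, y) :=
    ContinuousAt.comp (f := fun p : ℝ × ℝ => p.2) (g := fun s => f x s)
      (hasDeriv2 hQ hf hg hx hy).continuousAt continuousAt_snd
  have h2 : Tendsto (fun p : ℝ × ℝ => f p.1 p.2 - f x p.2) (𝓝 (x, y)) (𝓝 0) := by
    have hb : Tendsto (fun p : ℝ × ℝ => C1 / (y / 2) * |p.1 - x|) (𝓝 (x, y)) (𝓝 0) := by
      have : ContinuousAt (fun p : ℝ × ℝ => C1 / (y / 2) * |p.1 - x|) (x, y) := by fun_prop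
      have h3 := this.tendsto
      simpa using h3
    refine squeeze_zero_norm' ?_ hb
    have e1 : ∀ᶠ p : ℝ × ℝ in 𝓝 (x, y), x / 2 ≤ p.1 :=
      (continuousAt_fst (p := (x, y))).eventually (eventually_ge_nhds (show x / 2 < x by linarith))
    have e2 : ∀ᶠ p : ℝ × ℝ in 𝓝 (x, y), y / 2 ≤ p.2 :=
      (continuousAt_snd (p := (x, y))).eventually (eventually_ge_nhds (show y / 2 < y by linarith))
    have e3 : ∀ᶠ p : ℝ × ℝ in 𝓝 (x, y), p.2 ≤ 2 * y :=
      (continuousAt_snd (p := (x, y))).eventually (eventually_le_nhds (show y < 2 * y by linarith))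
    filter_upwards [e1, e2, e3] with p p1 p2 p3
    have hK0 : (0:ℝ) ≤ K1 := Nat.cast_nonneg K1
    have h4 := h1 x p.1 p.2 hx (by linarith) (by linarith) (by nlinarith) (by nlinarith)
    rw [Real.norm_eq_abs]
    refine h4.trans ?_
    gcongr
  have h3 := h2.add hc2.tendsto
  rw [zero_add] at h3
  refine h3.congr fun p => ?_
  ring

theorem cont_g (hQ : Reg Q) (hf : IsLimit Q n f) (hg : IsD Q n g) {x y : ℝ} (hx : 0 < x)
    (hy : 0 < y) : ContinuousAt (fun p : ℝ × ℝ => g p.1 p.2) (x, y) := by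
  obtain ⟨K, hK, hyx⟩ := exists_K (x := x / 2) (y := 2 * y) (by linarith)
  obtain ⟨C, hC, h⟩ := quad hQ hf hg K hK
  apply continuousAt_of_locally_uniform_approx_of_continuousAt
  intro u hu
  obtain ⟨ε, hε, hεu⟩ := Metric.mem_uniformity_dist.mp hu
  obtain ⟨δ, hδ0, hδ⟩ : ∃ δ : ℝ, 0 < δ ∧ C / (y / 2) ^ 2 * δ < ε := by
    refine ⟨ε / (2 * (C / (y / 2) ^ 2)), by positivity, ?_⟩
    have : 0 < C / (y / 2) ^ 2 := by positivity
    have e : C / (y / 2) ^ 2 * (ε / (2 * (C / (y / 2) ^ 2))) = ε / 2 := by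
      field_simp
    rw [e]
    linarith
  have e1 : ∀ᶠ p : ℝ × ℝ in 𝓝 (x, y), x / 2 ≤ p.1 :=
    (continuousAt_fst (p := (x, y))).eventually (eventually_ge_nhds (show x / 2 < x by linarith))
  have e2 : ∀ᶠ p : ℝ × ℝ in 𝓝 (x, y), y / 2 ≤ p.2 :=
    (continuousAt_snd (p := (x, y))).eventually (eventually_ge_nhds (show y / 2 < y by linarith))
  have e3 : ∀ᶠ p : ℝ × ℝ in 𝓝 (x, y), p.2 ≤ 2 * y :=
    (continuousAt_snd (p := (x, y))).eventually (eventually_le_nhds (show y < 2 * y by linarith))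
  refine ⟨_, e1.and (e2.and e3), fun p => (f p.1 p.2 - f (p.1 + δ) p.2) / δ, ?_, ?_⟩
  · have h1 := cont_f hQ hf hg hx hy
    have h2 := cont_f hQ hf hg (x := x + δ) (by linarith) hy
    have h3 : ContinuousAt (fun p : ℝ × ℝ => f (p.1 + δ) p.2) (x, y) :=
      ContinuousAt.comp (f := fun p : ℝ × ℝ => (p.1 + δ, p.2)) (g := fun p : ℝ × ℝ => f p.1 p.2)
        h2 (by fun_prop)
    exact (h1.sub h3).div_const δ
  · rintro p ⟨p1, p2, p3⟩
    apply hεu
    have hK0 : (0:ℝ) ≤ K := Nat.cast_nonneg K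
    have h4 := h p.1 (p.1 + δ) p.2 (by linarith) (by linarith) (by linarith) (by nlinarith)
      (by nlinarith)
    rw [Real.dist_eq]
    have e4 : g p.1 p.2 - (f p.1 p.2 - f (p.1 + δ) p.2) / δ =
        (f (p.1 + δ) p.2 - f p.1 p.2 + (p.1 + δ - p.1) * g p.1 p.2) / δ := by
      field_simp
      ring
    rw [e4, abs_div, abs_of_pos hδ0, div_lt_iff₀ hδ0]
    refine lt_of_le_of_lt h4 ?_
    have e5 : p.1 + δ - p.1 = δ := by ring
    rw [e5]
    have hp2 : 0 < p.2 := by linarith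
    calc C * (δ / p.2) ^ 2 = C / p.2 ^ 2 * δ * δ := by rw [div_pow]; ring
      _ ≤ C / (y / 2) ^ 2 * δ * δ := by gcongr
      _ < ε * δ := mul_lt_mul_of_pos_right hδ hδ0

theorem c1 (hQ : Reg Q) (hf : IsLimit Q n f) (hg : IsD Q n g) :
    ContDiffOn ℝ 1 (fun p : ℝ × ℝ => f p.1 p.2) (Set.Ioi 0 ×ˢ Set.Ioi 0) := by
  have hopen : IsOpen (Set.Ioi (0:ℝ) ×ˢ Set.Ioi (0:ℝ)) := isOpen_Ioi.prod isOpen_Ioi
  have key : ∀ p ∈ Set.Ioi (0:ℝ) ×ˢ Set.Ioi (0:ℝ), HasStrictFDerivAt (fun p : ℝ × ℝ => f p.1 p.2)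
      ((ContinuousLinearMap.smulRight (1 : ℝ →L[ℝ] ℝ) (-g p.1 p.2)).coprod
        (ContinuousLinearMap.smulRight (1 : ℝ →L[ℝ] ℝ) (g p.2 p.1))) p := by
    rintro ⟨x, y⟩ ⟨hx, hy⟩
    simp only [Set.mem_Ioi] at hx hy
    have hc1 := cont_g hQ hf hg hx hy
    have hc2 : ContinuousAt (fun p : ℝ × ℝ => g p.2 p.1) (x, y) :=
      ContinuousAt.comp (f := fun p : ℝ × ℝ => (p.2, p.1)) (g := fun p : ℝ × ℝ => g p.1 p.2)
        (cont_g hQ hf hg hy hx) (by fun_prop)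
    have hev : ∀ᶠ p : ℝ × ℝ in 𝓝 (x, y), 0 < p.1 ∧ 0 < p.2 :=
      ((continuousAt_fst (p := (x, y))).eventually (eventually_gt_nhds hx)).and
        ((continuousAt_snd (p := (x, y))).eventually (eventually_gt_nhds hy))
    have := hasStrictFDerivAt_uncurry_coprod (𝕜 := ℝ) (u := (x, y)) (f := f)
      (f₁ := fun x y => ContinuousLinearMap.smulRight (1 : ℝ →L[ℝ] ℝ) (-g x y))
      (f₂ := fun x y => ContinuousLinearMap.smulRight (1 : ℝ →L[ℝ] ℝ) (g y x))
      (by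
        filter_upwards [hev] with p hp
        exact (hasDeriv1 hQ hf hg hp.1 hp.2).hasFDerivAt)
      (by
        filter_upwards [hev] with p hp
        exact (hasDeriv2 hQ hf hg hp.1 hp.2).hasFDerivAt)
      (by
        have : ContinuousAt (fun p : ℝ × ℝ => ContinuousLinearMap.smulRight (1 : ℝ →L[ℝ] ℝ)
          (-g p.1 p.2)) (x, y) := by
          exact (ContinuousLinearMap.smulRightL ℝ ℝ ℝ (1 : ℝ →L[ℝ] ℝ)).continuous.continuousAt.comp
            hc1.neg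
        exact this)
      (by
        have : ContinuousAt (fun p : ℝ × ℝ => ContinuousLinearMap.smulRight (1 : ℝ →L[ℝ] ℝ)
          (g p.2 p.1)) (x, y) := by
          exact (ContinuousLinearMap.smulRightL ℝ ℝ ℝ (1 : ℝ →L[ℝ] ℝ)).continuous.continuousAt.comp
            hc2
        exact this)
    exact this
  have h1 : (1 : WithTop ℕ∞) = 0 + 1 := rfl
  rw [h1, contDiffOn_succ_iff_fderiv_of_isOpen hopen]
  refine ⟨fun p hp => (key p hp).hasFDerivAt.differentiableAt.differentiableWithinAt,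
    fun h => absurd h (by decide), ?_⟩
  rw [contDiffOn_zero]
  have h2 : ContinuousOn (fun p : ℝ × ℝ =>
      (ContinuousLinearMap.smulRight (1 : ℝ →L[ℝ] ℝ) (-g p.1 p.2)).coprod
        (ContinuousLinearMap.smulRight (1 : ℝ →L[ℝ] ℝ) (g p.2 p.1)))
      (Set.Ioi 0 ×ˢ Set.Ioi 0) := by
    rintro ⟨x, y⟩ ⟨hx, hy⟩
    simp only [Set.mem_Ioi] at hx hy
    have hc1 := cont_g hQ hf hg hx hy
    have hc2 : ContinuousAt (fun p : ℝ × ℝ => g p.2 p.1) (x, y) :=
      ContinuousAt.comp (f := fun p : ℝ × ℝ => (p.2, p.1)) (g := fun p : ℝ × ℝ => g p.1 p.2)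
        (cont_g hQ hf hg hy hx) (by fun_prop)
    have e1 : ContinuousAt (fun p : ℝ × ℝ => ContinuousLinearMap.smulRight (1 : ℝ →L[ℝ] ℝ)
        (-g p.1 p.2)) (x, y) :=
      (ContinuousLinearMap.smulRightL ℝ ℝ ℝ (1 : ℝ →L[ℝ] ℝ)).continuous.continuousAt.comp hc1.neg
    have e2 : ContinuousAt (fun p : ℝ × ℝ => ContinuousLinearMap.smulRight (1 : ℝ →L[ℝ] ℝ)
        (g p.2 p.1)) (x, y) :=
      (ContinuousLinearMap.smulRightL ℝ ℝ ℝ (1 : ℝ →L[ℝ] ℝ)).continuous.continuousAt.comp hc2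
    have e3 : ∀ p : ℝ × ℝ, (ContinuousLinearMap.smulRight (1 : ℝ →L[ℝ] ℝ) (-g p.1 p.2)).coprod
        (ContinuousLinearMap.smulRight (1 : ℝ →L[ℝ] ℝ) (g p.2 p.1)) =
        (ContinuousLinearMap.smulRight (1 : ℝ →L[ℝ] ℝ) (-g p.1 p.2)).comp
          (ContinuousLinearMap.fst ℝ ℝ ℝ) +
        (ContinuousLinearMap.smulRight (1 : ℝ →L[ℝ] ℝ) (g p.2 p.1)).comp
          (ContinuousLinearMap.snd ℝ ℝ ℝ) := by
      intro p
      ext <;> simp
    simp only [e3]
    exact ((e1.clm_comp continuousAt_const).add (e2.clm_comp continuousAt_const)).continuousWithinAt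
  refine h2.congr ?_
  intro p hp
  exact (key p hp).hasFDerivAt.fderiv

end

end Pool.Agent.U167.AR.Limit
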