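import Pool.Agent.U167.AR.Limit2

/-!
Existence of scaling limits along subsequences.
-/

set_option maxHeartbeats 1000000

namespace Pool.Agent.U167.AR.Limit

open Filter Topology

variable {Q : ℕ → ℕ → ℝ}

/-- A sequence which is close to convergent sequences converges. -/
theorem conv_of_close {a : ℕ → ℝ}
    (h : ∀ ε : ℝ, 0 < ε → ∃ b : ℕ → ℝ, (∃ l, Tendsto b atTop (𝓝 l)) ∧
      ∀ᶠ j in atTop, |a j - b j| ≤ ε) : ∃ l, Tendsto a atTop (𝓝 l) := by
  apply cauchySeq_tendsto_of_complete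
  rw [Metric.cauchySeq_iff']
  intro ε hε
  obtain ⟨b, ⟨l, hl⟩, hab⟩ := h (ε / 8) (by positivity)
  have h1 := (Metric.tendsto_nhds.mp hl) (ε / 8) (by positivity)
  obtain ⟨N, hN⟩ := eventually_atTop.mp (hab.and h1)
  refine ⟨N, fun n hn => ?_⟩
  obtain ⟨p1, p2⟩ := hN n hn
  obtain ⟨p3, p4⟩ := hN N le_rfl
  rw [Real.dist_eq] at p2 p4 ⊢
  have e : a n - a N = (a n - b n) + ((b n - l) - (b N - l)) - (a N - b N) := by ring
  rw [e]
  have q1 := abs_sub ((a n - b n) + ((b n - l) - (b N - l))) (a N - b N)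
  have q2 := abs_add_le (a n - b n) ((b n - l) - (b N - l))
  have q3 := abs_sub (b n - l) (b N - l)
  linarith

theorem Reg.lipw (hQ : Reg Q) (K : ℕ) (hK : 1 ≤ K) : ∃ C : ℝ, 0 < C ∧ ∀ w k h : ℕ, 1 ≤ w →
    1 ≤ h → h ≤ K * w → |Q w h - Q (w + k) h| ≤ k * (C / h) := by
  obtain ⟨c, C, hc, hC, hf⟩ := hQ.first K hK
  refine ⟨C, hC, ?_⟩
  intro w k h h1 h2 h3
  induction k with
  | zero => simp
  | succ k ih =>
    obtain ⟨f1, f2⟩ := hf (w + k) h (by omega) h2 (h3.trans (Nat.mul_le_mul_left _ (by omega)))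
    have h4 := hQ.nonneg (w + k) h
    have h5 := hQ.le_one (w + k) h
    have hhr : (1:ℝ) ≤ h := by exact_mod_cast h2
    have h6 : 0 ≤ c * Q (w + k) h / h := by positivity
    have h7 : C * Q (w + k) h / h ≤ C / h := by
      gcongr
      nlinarith
    have e : Q w h - Q (w + (k + 1)) h = (Q w h - Q (w + k) h) + (Q (w + k) h - Q (w + k + 1) h) := by
      rw [show w + (k + 1) = w + k + 1 by ring]; ring
    rw [e]
    refine (abs_add_le _ _).trans ?_
    rw [abs_of_nonneg (by linarith : 0 ≤ Q (w + k) h - Q (w + k + 1) h)]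
    push_cast
    linarith

theorem Reg.lipx (hQ : Reg Q) (K : ℕ) (hK : 1 ≤ K) : ∃ C : ℝ, 0 < C ∧
    ∀ (x x' y : ℝ) (n : ℕ), 0 < x → x ≤ x' → 0 < y → y ≤ K * x → 1 ≤ fl x n → 1 ≤ fl y n →
    |Q (fl x n) (fl y n) - Q (fl x' n) (fl y n)| ≤ C * (((x' - x) * n + 1) / fl y n) := by
  obtain ⟨C, hC, h⟩ := hQ.lipw (2 * K) (by omega)
  refine ⟨C, hC, ?_⟩
  intro x x' y n hx hxx hy hyx h1 h2
  have hasp := fl_asp hx hy hyx h1
  obtain ⟨k, hk⟩ := Nat.exists_eq_add_of_le (fl_mono hxx n)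
  have u2 := lt_fl x n
  have u3 := fl_le (hx.le.trans hxx) n
  rw [hk] at u3 ⊢
  push_cast at u3
  have hk1 : (k:ℝ) ≤ (x' - x) * n + 1 := by nlinarith
  have h3 := h (fl x n) k (fl y n) h1 h2 hasp
  refine h3.trans ?_
  have hhr : (1:ℝ) ≤ fl y n := by exact_mod_cast h2
  calc (k:ℝ) * (C / fl y n) ≤ ((x' - x) * n + 1) * (C / fl y n) := by gcongr
    _ = C * (((x' - x) * n + 1) / fl y n) := by ring

/-- Convergence at all real widths follows from convergence at all rational widths. -/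
theorem real_of_rat (hQ : Reg Q) {n : ℕ → ℕ} (hn : Tendsto n atTop atTop) {y : ℝ} (hy : 0 < y)
    (h : ∀ a : ℚ, 0 < a → ∃ l, Tendsto (fun j => Q (fl a (n j)) (fl y (n j))) atTop (𝓝 l))
    {x : ℝ} (hx : 0 < x) : ∃ l, Tendsto (fun j => Q (fl x (n j)) (fl y (n j))) atTop (𝓝 l) := by
  have hnr : Tendsto (fun j => (n j : ℝ)) atTop atTop :=
    (tendsto_natCast_atTop_atTop (R := ℝ)).comp hn
  have hninv : Tendsto (fun j => (n j : ℝ)⁻¹) atTop (𝓝 0) := hnr.inv_tendsto_atTop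
  obtain ⟨K, hK, hyx⟩ := exists_K (y := y) hx
  obtain ⟨C, hC, hl⟩ := hQ.lipx K hK
  apply conv_of_close
  intro ε hε
  obtain ⟨a, ha1, ha2⟩ := exists_rat_btwn (show x < x + ε * y / (2 * C) by
    have : 0 < ε * y / (2 * C) := by positivity
    linarith)
  have ha0 : 0 < a := by
    have : (0:ℝ) < a := by linarith
    exact_mod_cast this
  refine ⟨fun j => Q (fl a (n j)) (fl y (n j)), h a ha0, ?_⟩
  have h1 : Tendsto (fun j => C * ((((a:ℝ) - x) * n j + 1) / (fl y (n j) : ℝ))) atTop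
      (𝓝 (C * (((a:ℝ) - x) / y))) := by
    have h2 : Tendsto (fun j => (((a:ℝ) - x) + (n j : ℝ)⁻¹) / ((fl y (n j) : ℝ) / n j)) atTop
        (𝓝 ((((a:ℝ) - x) + 0) / y)) := (hninv.const_add ((a:ℝ) - x)).div (fl_div hy hn) hy.ne'
    rw [add_zero] at h2
    refine (h2.congr' ?_).const_mul C
    filter_upwards [hn.eventually (eventually_ge_atTop 1)] with j hj
    have hj' : (n j : ℝ) ≠ 0 := by
      have : 0 < n j := hj
      positivity
    field_simp
  have h3 : C * (((a:ℝ) - x) / y) < ε := by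
    have h4 : (a:ℝ) - x < ε * y / (2 * C) := by linarith
    calc C * (((a:ℝ) - x) / y) < C * ((ε * y / (2 * C)) / y) := by gcongr
      _ = ε / 2 := by field_simp
      _ < ε := by linarith
  filter_upwards [h1.eventually (eventually_le_nhds h3), hfl hn hx hy] with j j1 j2
  exact (hl x a y (n j) hx ha1.le hy hyx j2.1 j2.2).trans j1

/-- Duality. -/
theorem conv_dual (hQ : Reg Q) {n : ℕ → ℕ} (hn : Tendsto n atTop atTop) {x y : ℝ} (hx : 0 < x)
    (hy : 0 < y) (h : ∃ l, Tendsto (fun j => Q (fl x (n j)) (fl y (n j))) atTop (𝓝 l)) :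
    ∃ l, Tendsto (fun j => Q (fl y (n j)) (fl x (n j))) atTop (𝓝 l) := by
  obtain ⟨l, hl⟩ := h
  have step : ∀ x y : ℝ, 0 < x → 0 < y → Tendsto (fun j => Q (fl x (n j)) (fl y (n j)) -
      Q (fl x (n j) + 1) (fl y (n j))) atTop (𝓝 0) := by
    intro x y hx hy
    obtain ⟨K, hK, hyx⟩ := exists_K (y := y) hx
    obtain ⟨C, hC, hlw⟩ := hQ.lipw (2 * K) (by omega)
    have h3 : Tendsto (fun j => C / (fl y (n j) : ℝ)) atTop (𝓝 0) :=
      ((tendsto_natCast_atTop_atTop (R := ℝ)).comp (fl_tendsto hy hn)).const_div_atTop C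
    refine squeeze_zero_norm' ?_ h3
    filter_upwards [hfl hn hx hy] with j hj
    have h4 := hlw (fl x (n j)) 1 (fl y (n j)) hj.1 hj.2 (fl_asp hx hy hyx hj.1)
    rw [Real.norm_eq_abs]
    push_cast at h4
    rw [one_mul] at h4
    exact h4
  refine ⟨1 - l, ?_⟩
  have h1 := ((step y x hy hx).add ((hl.sub (step x y hx hy)).const_sub 1))
  rw [sub_zero, zero_add] at h1
  refine h1.congr fun j => ?_
  have := hQ.dual (fl x (n j)) (fl y (n j))
  linarith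

/-- **Existence of scaling limits along subsequences.** -/
theorem exists_subseq (hQ : Reg Q) {n : ℕ → ℕ} (hn : Tendsto n atTop atTop) :
    ∃ φ : ℕ → ℕ, StrictMono φ ∧ ∃ f, IsLimit Q (n ∘ φ) f := by
  let u : ℕ → (ℚ × ℚ → unitInterval) := fun j p =>
    ⟨Q (fl p.1 (n j)) (fl p.2 (n j)), hQ.nonneg _ _, hQ.le_one _ _⟩
  obtain ⟨L, -, φ, hφ, hL⟩ := (isCompact_univ (X := ℚ × ℚ → unitInterval)).tendsto_subseq
    (x := u) (fun _ => Set.mem_univ _)
  refine ⟨φ, hφ, ?_⟩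
  have hn' : Tendsto (n ∘ φ) atTop atTop := hn.comp hφ.tendsto_atTop
  have h0 : ∀ a b : ℚ, ∃ l, Tendsto (fun j => Q (fl a ((n ∘ φ) j)) (fl b ((n ∘ φ) j))) atTop
      (𝓝 l) := by
    intro a b
    have h1 := (tendsto_pi_nhds.mp hL) (a, b)
    exact ⟨_, (continuous_subtype_val.tendsto _).comp h1⟩
  have h1 : ∀ (x : ℝ) (b : ℚ), 0 < x → 0 < b →
      ∃ l, Tendsto (fun j => Q (fl x ((n ∘ φ) j)) (fl b ((n ∘ φ) j))) atTop (𝓝 l) := by
    intro x b hx hb
    have hb' : (0:ℝ) < b := by exact_mod_cast hb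
    exact real_of_rat hQ hn' hb' (fun a _ => h0 a b) hx
  have h2 : ∀ (a : ℚ) (y : ℝ), 0 < a → 0 < y →
      ∃ l, Tendsto (fun j => Q (fl a ((n ∘ φ) j)) (fl y ((n ∘ φ) j))) atTop (𝓝 l) := by
    intro a y ha hy
    have ha' : (0:ℝ) < a := by exact_mod_cast ha
    exact conv_dual hQ hn' hy ha' (h1 y a hy ha)
  have h3 : ∀ x y : ℝ, 0 < x → 0 < y →
      ∃ l, Tendsto (fun j => Q (fl x ((n ∘ φ) j)) (fl y ((n ∘ φ) j))) atTop (𝓝 l) :=
    fun x y hx hy => real_of_rat hQ hn' hy (fun a ha => h2 a y ha hy) hx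
  have h4 : ∀ x y : ℝ, ∃ l, 0 < x → 0 < y →
      Tendsto (fun j => Q (fl x ((n ∘ φ) j)) (fl y ((n ∘ φ) j))) atTop (𝓝 l) := by
    intro x y
    by_cases hx : 0 < x
    · by_cases hy : 0 < y
      · obtain ⟨l, hl⟩ := h3 x y hx hy
        exact ⟨l, fun _ _ => hl⟩
      · exact ⟨0, fun _ h => absurd h hy⟩
    · exact ⟨0, fun h => absurd h hx⟩
  choose f hf using h4
  exact ⟨f, hn', fun x y hx hy => hf x y hx hy⟩

end Pool.Agent.U167.AR.Limit
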