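import Pool.Agent.U167.AR.Limit3

/-!
Uniform versions of the bounds for the derivative.
-/

set_option maxHeartbeats 1000000

namespace Pool.Agent.U167.AR.Limit

open Filter Topology

variable {Q : ℕ → ℕ → ℝ}

theorem T2u (hQ : Reg Q) (K : ℕ) (hK : 1 ≤ K) :
    ∃ C : ℝ, 0 < C ∧ ∀ (n : ℕ → ℕ) (f g : ℝ → ℝ → ℝ), IsLimit Q n f → IsD Q n g →
      ∀ x x' y : ℝ, 0 < x → x ≤ x' → 0 < y → y ≤ K * x →
      |g x y - g x' y| ≤ C * f x y * ((x' - x) / y ^ 2) := by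
  obtain ⟨C, hC, he⟩ := hQ.expand K hK
  refine ⟨C, hC, ?_⟩
  intro n f g hf hg x x' y hx hxx hy hyx
  obtain ⟨hn, hlim⟩ := hf
  have hnr : Tendsto (fun j => (n j : ℝ)) atTop atTop :=
    (tendsto_natCast_atTop_atTop (R := ℝ)).comp hn
  have hninv : Tendsto (fun j => (n j : ℝ)⁻¹) atTop (𝓝 0) := hnr.inv_tendsto_atTop
  have hyd := fl_div hy hn
  have h1 : Tendsto (fun j => C * Q (fl x (n j)) (fl y (n j)) *
      (((x' - x) * n j + 1) * n j / (fl y (n j) : ℝ) ^ 2)) atTop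
      (𝓝 (C * f x y * ((x' - x) / y ^ 2))) := by
    have h2 : Tendsto (fun j => ((x' - x) + (n j : ℝ)⁻¹) / ((fl y (n j) : ℝ) / n j) ^ 2) atTop
        (𝓝 (((x' - x) + 0) / y ^ 2)) :=
      (hninv.const_add (x' - x)).div (hyd.pow 2) (by positivity)
    rw [add_zero] at h2
    refine ((hlim x y hx hy).const_mul C).mul (h2.congr' ?_)
    filter_upwards [hn.eventually (eventually_ge_atTop 1)] with j hj
    have hj' : (n j : ℝ) ≠ 0 := by
      have : 0 < n j := hj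
      positivity
    field_simp
  have h3 := ((hg x y hx hy).sub (hg x' y (by linarith) hy)).abs
  refine le_of_tendsto_of_tendsto h3 h1 ?_
  filter_upwards [hfl hn hx hy] with j hj
  exact (he x x' y (n j) hx hxx hy hyx hj.1 hj.2).2

theorem T0u (hQ : Reg Q) (K : ℕ) (hK : 1 ≤ K) :
    ∃ c C : ℝ, 0 < c ∧ 0 < C ∧ ∀ (n : ℕ → ℕ) (f g : ℝ → ℝ → ℝ), IsLimit Q n f → IsD Q n g →
      ∀ x y : ℝ, 0 < x → 0 < y → y ≤ K * x →
      c * f x y / y ≤ g x y ∧ g x y ≤ C * f x y / y := by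
  obtain ⟨c, C, hc, hC, he⟩ := hQ.first (2 * K) (by omega)
  refine ⟨c, C, hc, hC, ?_⟩
  intro n f g hf hg x y hx hy hyx
  obtain ⟨hn, hlim⟩ := hf
  have hyd := fl_div hy hn
  have h0 : ∀ a : ℝ, Tendsto (fun j => (a * Q (fl x (n j)) (fl y (n j))) /
      ((fl y (n j) : ℝ) / n j)) atTop (𝓝 (a * f x y / y)) := fun a =>
    ((hlim x y hx hy).const_mul a).div hyd hy.ne'
  have hev : ∀ᶠ j in atTop, 1 ≤ n j ∧ 1 ≤ fl x (n j) ∧ 1 ≤ fl y (n j) :=
    (hn.eventually (eventually_ge_atTop 1)).and (hfl hn hx hy)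
  constructor
  · refine le_of_tendsto_of_tendsto (h0 c) (hg x y hx hy) ?_
    filter_upwards [hev] with j hj
    have h1 := (he _ _ hj.2.1 hj.2.2 (fl_asp hx hy hyx hj.2.1)).1
    have h2 : (0:ℝ) < n j := by exact_mod_cast hj.1
    have h3 : (0:ℝ) < fl y (n j) := by exact_mod_cast hj.2.2
    have h4 := mul_le_mul_of_nonneg_left h1 h2.le
    refine le_trans (le_of_eq ?_) h4
    field_simp
  · refine le_of_tendsto_of_tendsto (hg x y hx hy) (h0 C) ?_
    filter_upwards [hev] with j hj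
    have h1 := (he _ _ hj.2.1 hj.2.2 (fl_asp hx hy hyx hj.2.1)).2
    have h2 : (0:ℝ) < n j := by exact_mod_cast hj.1
    have h3 : (0:ℝ) < fl y (n j) := by exact_mod_cast hj.2.2
    have h4 := mul_le_mul_of_nonneg_left h1 h2.le
    refine le_trans h4 (le_of_eq ?_)
    field_simp

end Pool.Agent.U167.AR.Limit
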