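import Pool.Agent.U167.AR.Tip

/-!
The second differences, in the width, of the crossing probabilities of rectangles.
-/

set_option maxHeartbeats 1000000

namespace Pool.Agent.U167.AR

open H974 Finset Pool.Agent.W424.AR

/-- The end point of a path of a rectangle has a height in the range of the rectangle. -/
theorem height {a b m : ℤ} {G : Set Edg} {u v : Vtx} (h : Reach (G ∩ ↑(LRE a b 0 m)) u v)
    (hu : 0 ≤ u.2 ∧ u.2 ≤ m) : 0 ≤ v.2 ∧ v.2 ≤ m := by
  induction h with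
  | refl => exact hu
  | @tail v v' _ hs ih =>
    obtain ⟨⟨x0, y0, bo⟩, ⟨-, he⟩, hcase⟩ := hs
    cases bo
    · simp only [src_mk, tgt_false] at hcase
      rw [Finset.mem_coe, mem_LRE_false] at he
      rcases hcase with ⟨h3, h4⟩ | ⟨h3, h4⟩
      · rw [← h4]; simp only; omega
      · rw [← h3]; simp only; omega
    · simp only [src_mk, tgt_true] at hcase
      rw [Finset.mem_coe, mem_LRE_true] at he
      rcases hcase with ⟨h3, h4⟩ | ⟨h3, h4⟩
      · rw [← h4]; simp only; omega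
      · rw [← h3]; simp only; omega

/-- A crossing which cannot be prolonged gives a right tip. -/
theorem right_tip {a b s m : ℤ} {F : Finset Edg} (hs : 1 ≤ s) (hab : a + s ≤ b)
    (h1 : LRc a b 0 m F) (h2 : ¬ LRc a (b + 1) 0 m F) : RT (b - s) b m F := by
  obtain ⟨y, y', hy, hy', hr⟩ := h1
  obtain ⟨y1, y2, h3, h4, h5, h6⟩ := sub_LR (a := b - s) (b := b) (c := 0) (d := m) (by omega)
    (by rintro x z ⟨-, h⟩ _ _; simp only [mem_coe, mem_LRE_true] at h; omega)
    (by rintro x z ⟨-, h⟩ _ _; simp only [mem_coe, mem_LRE_false] at h; omega) hr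
    (by simp only; omega) le_rfl
  have i1 : ((↑F : Set Edg) ∩ ↑(LRE a b 0 m)) ⊆ ↑F ∩ ↑(LRE a (b + 1) 0 m) := by
    rintro ⟨x, z, _ | _⟩ ⟨h7, h8⟩
    · refine ⟨h7, ?_⟩
      simp only [mem_coe, mem_LRE_false] at h8 ⊢; omega
    · refine ⟨h7, ?_⟩
      simp only [mem_coe, mem_LRE_true] at h8 ⊢; omega
  refine ⟨y1, y2, h3, h4, h5.mono ?_, ?_⟩
  · rintro ⟨x, z, _ | _⟩ ⟨⟨h7, -⟩, h8⟩
    · refine ⟨h7, ?_⟩
      simp only [mem_coe, mem_LRE_false] at h8 ⊢; omega
    · refine ⟨h7, ?_⟩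
      simp only [mem_coe, mem_LRE_true] at h8 ⊢; omega
  · intro z hz
    have hzr := height hz h3
    apply h2
    refine ⟨y, z, hy, hzr, (h6.mono i1).trans (hz.mono ?_)⟩
    rintro ⟨x, z, _ | _⟩ ⟨h7, h8⟩
    · refine ⟨h7, ?_⟩
      simp only [mem_coe, mem_LRE_false] at h8 ⊢; omega
    · refine ⟨h7, ?_⟩
      simp only [mem_coe, mem_LRE_true] at h8 ⊢; omega

theorem LRc_rfx {a b c d k : ℤ} {F : Finset Edg} (h : LRc a b c d F) :
    LRc (k - b) (k - a) c d ((rfx k).mp F) := by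
  obtain ⟨y, y', h1, h2, h3⟩ := h
  have h4 := (rfx k).reach h3.symm
  rw [LSym.image_inter, rfx_LRE, rfx_ψ, rfx_ψ] at h4
  exact ⟨y', y, h2, h1, h4⟩

theorem LRc_rfx_iff {a b c d k : ℤ} {F : Finset Edg} :
    LRc (k - b) (k - a) c d ((rfx k).mp F) ↔ LRc a b c d F := by
  constructor
  · intro h
    have := LRc_rfx (k := k) h
    rw [rfx_rfx] at this
    simpa using this
  · exact LRc_rfx

/-- A crossing which cannot be prolonged gives a left tip. -/
theorem left_tip {a b s m : ℤ} {F : Finset Edg} (hs : 1 ≤ s) (hab : a + 1 + s ≤ b)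
    (h1 : LRc (a + 1) b 0 m F) (h2 : ¬ LRc a b 0 m F) : LT (a + 1) (a + 1 + s) m F := by
  have e1 := (LRc_rfx_iff (k := a + 1 + b) (F := F) (a := a + 1) (b := b) (c := 0) (d := m)).mpr h1
  have e2 : ¬ LRc (a + 1 + b - b) (a + 1 + b - a) 0 m ((rfx (a + 1 + b)).mp F) := by
    rw [LRc_rfx_iff]
    exact h2
  have e3 : a + 1 + b - b = a + 1 := by ring
  have e4 : a + 1 + b - (a + 1) = b := by ring
  have e5 : a + 1 + b - a = b + 1 := by ring
  rw [e3, e4] at e1
  rw [e3, e5] at e2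
  have h3 := right_tip hs hab e1 e2
  have h4 := LT_rfx (k := a + 1 + b) h3
  rw [rfx_rfx] at h4
  have e6 : a + 1 + b - (b - s) = a + 1 + s := by ring
  rw [e3, e6] at h4
  exact h4

/-- The second difference of the crossing probabilities, in the width. -/
noncomputable def SD (k m : ℤ) : ℝ := hh (1/2) k m - 2 * hh (1/2) (k + 1) m + hh (1/2) (k + 2) m

/-- The second difference is bounded by the probability of two tips. -/
theorem SD_le {k m s : ℤ} (hs : 1 ≤ s) (h2 : 2 * s < k) :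
    |SD k m| ≤ lam s m ^ 2 * hh (1/2) (k - 2 * s) m := by
  have ok := okq (q := 1/2) (by norm_num) (by norm_num)
  obtain ⟨S, hS⟩ : ∃ S : Finset Edg, S = LRE 0 (k + 2) 0 m := ⟨_, rfl⟩
  have sub : ∀ a b : ℤ, 0 ≤ a → b ≤ k + 2 → LRE a b 0 m ⊆ S := by
    intro a b ha hb
    rw [hS]
    rintro ⟨x, y, _ | _⟩ he
    · rw [mem_LRE_false] at he ⊢; omega
    · rw [mem_LRE_true] at he ⊢; omega
  have eA : Pr (fun _ => 1/2) S (LRc 1 (k + 1) 0 m) = hh (1/2) k m := by
    rw [pr_LRc _ (sub _ _ (by omega) (by omega))]; congr 1 <;> ring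
  have eB : Pr (fun _ => 1/2) S (LRc 0 (k + 1) 0 m) = hh (1/2) (k + 1) m := by
    rw [pr_LRc _ (sub _ _ (by omega) (by omega))]; congr 1 <;> ring
  have eC : Pr (fun _ => 1/2) S (LRc 1 (k + 2) 0 m) = hh (1/2) (k + 1) m := by
    rw [pr_LRc _ (sub _ _ (by omega) (by omega))]; congr 1 <;> ring
  have eD : Pr (fun _ => 1/2) S (LRc 0 (k + 2) 0 m) = hh (1/2) (k + 2) m := by
    rw [pr_LRc _ (sub _ _ (by omega) (by omega))]; congr 1 <;> ring
  obtain ⟨EE, hEE⟩ : ∃ EE : Finset Edg → Prop, EE = fun F => RT (k + 1 - s) (k + 1) m F ∧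
    (LT (0 + 1) (0 + 1 + s) m F ∧ LRc (1 + s) (k + 1 - s) 0 m F) := ⟨_, rfl⟩
  have hE : Pr (fun _ => 1/2) S EE = lam s m ^ 2 * hh (1/2) (k - 2 * s) m := by
    have d1 : Disjoint (LRE (k + 1 - s) (k + 1 + 1) 0 m) (LRE 0 (k + 1 - s) 0 m) := by
      rw [Finset.disjoint_left]
      rintro ⟨x, y, _ | _⟩ he1 he2
      · simp only [mem_LRE_false] at he1 he2; omega
      · simp only [mem_LRE_true] at he1 he2; omega
    have d2 : Disjoint (LRE (0 + 1 - 1) (0 + 1 + s) 0 m) (LRE (1 + s) (k + 1 - s) 0 m) := by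
      rw [Finset.disjoint_left]
      rintro ⟨x, y, _ | _⟩ he1 he2
      · simp only [mem_LRE_false] at he1 he2; omega
      · simp only [mem_LRE_true] at he1 he2; omega
    have s1 : LRE (0 + 1 - 1) (0 + 1 + s) 0 m ⊆ LRE 0 (k + 1 - s) 0 m := by
      rintro ⟨x, y, _ | _⟩ he
      · rw [mem_LRE_false] at he ⊢; omega
      · rw [mem_LRE_true] at he ⊢; omega
    have s2 : LRE (1 + s) (k + 1 - s) 0 m ⊆ LRE 0 (k + 1 - s) 0 m := by
      rintro ⟨x, y, _ | _⟩ he
      · rw [mem_LRE_false] at he ⊢; omega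
      · rw [mem_LRE_true] at he ⊢; omega
    have i1 := Pr_indep (p := fun _ => (1/2 : ℝ)) (U := S) (sub _ _ (by omega) (by omega))
      (sub _ _ (by omega) (by omega)) d1 (A := RT (k + 1 - s) (k + 1) m)
      (B := fun F => LT (0 + 1) (0 + 1 + s) m F ∧ LRc (1 + s) (k + 1 - s) 0 m F)
      (fun F _ => RT_local (Finset.Subset.refl _))
      (fun F _ => and_congr (LT_local s1) (LRc_local s2))
    have i2 := Pr_indep (p := fun _ => (1/2 : ℝ)) (U := S) (sub _ _ (by omega) (by omega))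
      (sub _ _ (by omega) (by omega)) d2 (A := LT (0 + 1) (0 + 1 + s) m)
      (B := LRc (1 + s) (k + 1 - s) 0 m)
      (fun F _ => LT_local (Finset.Subset.refl _)) (fun F _ => LRc_local (Finset.Subset.refl _))
    rw [hEE, i1, i2, pr_RT (sub _ _ (by omega) (by omega)), pr_LT (sub _ _ (by omega) (by omega)),
      pr_LRc _ (sub _ _ (by omega) (by omega))]
    have e1 : k + 1 - (k + 1 - s) = s := by ring
    have e2 : (0:ℤ) + 1 + s - (0 + 1) = s := by ring
    have e3 : k + 1 - s - (1 + s) = k - 2 * s := by ring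
    have e4 : m - 0 = m := by ring
    rw [e1, e2, e3, e4]
    ring
  -- the pointwise bounds
  have mono : ∀ F, (LRc 0 (k + 1) 0 m F → LRc 1 (k + 1) 0 m F) ∧
      (LRc 1 (k + 2) 0 m F → LRc 1 (k + 1) 0 m F) ∧
      (LRc 0 (k + 2) 0 m F → LRc 0 (k + 1) 0 m F) ∧
      (LRc 0 (k + 2) 0 m F → LRc 1 (k + 2) 0 m F) := by
    intro F
    refine ⟨LRc_sub (by omega) (by omega) (by omega) le_rfl le_rfl,
      LRc_sub (by omega) (by omega) (by omega) le_rfl le_rfl,
      LRc_sub (by omega) (by omega) (by omega) le_rfl le_rfl,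
      LRc_sub (by omega) (by omega) (by omega) le_rfl le_rfl⟩
  have e22 : k + 1 + 1 = k + 2 := by ring
  have c1 : ∀ F, LRc 1 (k + 1) 0 m F → ¬ LRc 0 (k + 1) 0 m F → ¬ LRc 1 (k + 2) 0 m F → EE F := by
    intro F hA hB hC
    rw [hEE]
    refine ⟨right_tip hs (by omega) hA (by rw [e22]; exact hC),
      left_tip (b := k + 1) hs (by omega) (by simpa using hA) hB,
      LRc_sub (by omega) (by omega) (by omega) le_rfl le_rfl hA⟩
  have c2 : ∀ F, LRc 0 (k + 1) 0 m F → LRc 1 (k + 2) 0 m F → ¬ LRc 0 (k + 2) 0 m F → EE F := by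
    intro F hB hC hD
    rw [hEE]
    refine ⟨right_tip hs (by omega) hB (by rw [e22]; exact hD),
      left_tip (b := k + 2) hs (by omega) (by simpa using hC) hD,
      LRc_sub (by omega) (by omega) (by omega) le_rfl le_rfl hB⟩
  have p1 : Pr (fun _ => 1/2) S (LRc 1 (k + 1) 0 m) + Pr (fun _ => 1/2) S (LRc 0 (k + 2) 0 m) ≤
      Pr (fun _ => 1/2) S (LRc 0 (k + 1) 0 m) + Pr (fun _ => 1/2) S (LRc 1 (k + 2) 0 m) +
        Pr (fun _ => 1/2) S EE := by
    unfold Pr
    rw [← Ex_add, ← Ex_add, ← Ex_add]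
    apply Ex_mono ok
    intro F _
    obtain ⟨m1, m2, m3, m4⟩ := mono F
    have h3 := ind_nonneg (EE F)
    have h4 := ind_nonneg (LRc 0 (k + 1) 0 m F)
    have h5 := ind_nonneg (LRc 1 (k + 2) 0 m F)
    by_cases hD : LRc 0 (k + 2) 0 m F
    · rw [ind_of hD, ind_of (m3 hD), ind_of (m4 hD)]
      have := ind_le_one (LRc 1 (k + 1) 0 m F)
      linarith
    · rw [ind_not_of hD]
      by_cases hA : LRc 1 (k + 1) 0 m F
      · rw [ind_of hA]
        by_cases hB : LRc 0 (k + 1) 0 m F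
        · rw [ind_of hB]; linarith
        · by_cases hC : LRc 1 (k + 2) 0 m F
          · rw [ind_of hC]; linarith
          · rw [ind_of (c1 F hA hB hC)]; linarith
      · rw [ind_not_of hA]; linarith
  have p2 : Pr (fun _ => 1/2) S (LRc 0 (k + 1) 0 m) + Pr (fun _ => 1/2) S (LRc 1 (k + 2) 0 m) ≤
      Pr (fun _ => 1/2) S (LRc 1 (k + 1) 0 m) + Pr (fun _ => 1/2) S (LRc 0 (k + 2) 0 m) +
        Pr (fun _ => 1/2) S EE := by
    unfold Pr
    rw [← Ex_add, ← Ex_add, ← Ex_add]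
    apply Ex_mono ok
    intro F _
    obtain ⟨m1, m2, m3, m4⟩ := mono F
    have h3 := ind_nonneg (EE F)
    have h4 := ind_nonneg (LRc 0 (k + 2) 0 m F)
    have h5 := ind_nonneg (LRc 1 (k + 1) 0 m F)
    by_cases hB : LRc 0 (k + 1) 0 m F
    · rw [ind_of hB, ind_of (m1 hB)]
      by_cases hC : LRc 1 (k + 2) 0 m F
      · rw [ind_of hC]
        by_cases hD : LRc 0 (k + 2) 0 m F
        · rw [ind_of hD]; linarith
        · rw [ind_of (c2 F hB hC hD)]; linarith
      · rw [ind_not_of hC]; linarith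
    · rw [ind_not_of hB]
      by_cases hC : LRc 1 (k + 2) 0 m F
      · rw [ind_of hC, ind_of (m2 hC)]; linarith
      · rw [ind_not_of hC]; linarith
  rw [eA, eB, eC, eD, hE] at p1
  rw [eA, eB, eC, eD, hE] at p2
  unfold SD
  rw [abs_le]
  constructor
  · generalize lam s m ^ 2 * hh (1/2) (k - 2 * s) m = X at p1 p2 ⊢
    linarith
  · generalize lam s m ^ 2 * hh (1/2) (k - 2 * s) m = X at p1 p2 ⊢
    linarith

/-- The trivial bound. -/
theorem SD_triv {k m : ℤ} (hk : 1 ≤ k) : |SD k m| ≤ hh (1/2) k m := by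
  have h1 := DD_nonneg (w := k) m hk
  have h2 := DD_nonneg (w := k + 1) m (by omega)
  have h3 := hh_nonneg (q := 1/2) (by norm_num) (by norm_num) (k + 1) m
  have h4 := hh_nonneg (q := 1/2) (by norm_num) (by norm_num) (k + 2) m
  unfold DD at h1 h2
  have e : k + 1 + 1 = k + 2 := by ring
  rw [e] at h2
  unfold SD
  rw [abs_le]
  constructor <;> linarith

/-- Comparison of the crossing probabilities of two long rectangles. -/
theorem ratio : ∃ C : ℝ, 1 ≤ C ∧ ∀ w k m : ℤ, 1 ≤ w → 1 ≤ m → w ≤ k → k ≤ w + m →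
    hh (1/2) w m ≤ C * hh (1/2) k m := by
  obtain ⟨c, hc, hc1, hr⟩ := rsw 2 (by norm_num)
  refine ⟨1 / (c * c), ?_, ?_⟩
  · rw [le_div_iff₀ (by positivity)]
    nlinarith
  intro w k m hw hm hwk hkm
  have h0 : 0 ≤ hh (1/2) w m := hh_nonneg (by norm_num) (by norm_num) _ _
  have hk0 : 0 ≤ hh (1/2) k m := hh_nonneg (by norm_num) (by norm_num) _ _
  have key : hh (1/2) w m * (c * c) ≤ hh (1/2) k m := by
    rcases lt_or_ge w m with h1 | h1
    · have h2 := hr k m (by omega) hm (by push_cast; omega)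
      have h3 : hh (1/2) w m ≤ 1 := hh_le_one (by norm_num) (by norm_num) _ _
      have h4 : c * c ≤ c := by nlinarith
      calc hh (1/2) w m * (c * c) ≤ 1 * c := by
            apply mul_le_mul h3 h4 (by positivity) (by norm_num)
        _ ≤ hh (1/2) k m := by linarith
    · have h4 := hh_glue (q := 1/2) (by norm_num) (by norm_num) (w1 := w) (w2 := 2 * m)
        (v := m) (h := m) (by omega) (by omega) (by omega) (by omega)
      have h5 := hr (2 * m) m (by omega) hm (by push_cast; omega)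
      have h6 := hr m m hm hm (by push_cast; omega)
      have h7 : hh (1/2) (w + 2 * m - m) m ≤ hh (1/2) k m :=
        hh_mono (by norm_num) (by norm_num) (by omega) (by omega) le_rfl
      refine le_trans ?_ (h4.trans h7)
      rw [mul_assoc]
      exact mul_le_mul_of_nonneg_left (mul_le_mul h5 h6 hc.le (hc.le.trans h5)) h0
  rw [div_mul_eq_mul_div, one_mul, le_div_iff₀ (by positivity)]
  exact key

/-- A scale with a small tip probability. -/
theorem scale (K : ℕ) (hK : 1 ≤ K) : ∃ C : ℝ, 0 < C ∧ ∀ r m : ℤ, 8 ≤ r → 1 ≤ m → m ≤ K * r →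
    ∃ s : ℤ, 1 ≤ s ∧ 2 * s < r ∧ lam s m ≤ C / r := by
  obtain ⟨c, hc, hd⟩ := rsw_dual (8 * K) (by omega)
  refine ⟨16 / c^2, by positivity, ?_⟩
  intro r m hr hm hmr
  obtain ⟨a, ha⟩ : ∃ a : ℤ, a = r / 4 := ⟨_, rfl⟩
  obtain ⟨L, hL⟩ : ∃ L : ℤ, L = r / 2 := ⟨_, rfl⟩
  have ha1 : 2 ≤ a := by omega
  have ha2 : r ≤ 8 * a := by omega
  have haL : a < L := by omega
  have hLa : r ≤ 8 * (L - a) := by omega
  have hKz : (1:ℤ) ≤ K := by exact_mod_cast hK
  have h1 := hd a m ha1 (by omega) (by push_cast; nlinarith)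
  have h2 := sum_lam (L := L) (a := a) (m := m) (by omega) haL.le (by linarith)
  by_contra hcon
  push Not at hcon
  have h3 : ∀ s ∈ Finset.Ico a L, 16 / c^2 / r ≤ lam s m := by
    intro s hs
    rw [Finset.mem_Ico] at hs
    exact (hcon s (by omega) (by omega)).le
  have h4 := Finset.card_nsmul_le_sum _ _ _ h3
  rw [Int.card_Ico, nsmul_eq_mul] at h4
  have h5 : (((L - a).toNat : ℕ) : ℝ) = (L:ℝ) - a := by
    have : ((L - a).toNat : ℤ) = L - a := Int.toNat_of_nonneg (by omega)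
    have h6 : (((L - a).toNat : ℤ) : ℝ) = ((L - a : ℤ) : ℝ) := by rw [this]
    push_cast at h6
    exact h6
  rw [h5] at h4
  have hrr : (8:ℝ) ≤ r := by exact_mod_cast hr
  have h6 : (r:ℝ) ≤ 8 * ((L:ℝ) - a) := by exact_mod_cast hLa
  have h7 : (2:ℝ) / (1 - hh (1/2) a m)^2 ≤ 2 / c^2 := by
    apply div_le_div_of_nonneg_left (by norm_num) (by positivity)
    exact pow_le_pow_left₀ hc.le h1 2
  -- strict inequality somewhere
  have h8 : ∑ s ∈ Finset.Ico a L, lam s m > ∑ s ∈ Finset.Ico a L, (16 / c^2 / r) := by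
    apply Finset.sum_lt_sum_of_nonempty
    · rw [Finset.nonempty_Ico]; exact haL
    · intro s hs
      rw [Finset.mem_Ico] at hs
      exact hcon s (by omega) (by omega)
  rw [Finset.sum_const, Int.card_Ico, nsmul_eq_mul, h5] at h8
  have h9 : 2 / c^2 ≤ ((L:ℝ) - a) * (16 / c^2 / r) := by
    have e : ((L:ℝ) - a) * (16 / c^2 / r) = (2 / c^2) * (8 * ((L:ℝ) - a) / r) := by
      field_simp
      ring
    rw [e]
    have h10 : 1 ≤ 8 * ((L:ℝ) - a) / r := by
      rw [le_div_iff₀ (by linarith)]; linarith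
    have h11 : 0 < 2 / c^2 := by positivity
    nlinarith
  linarith

/-- **Second differences in the width.** -/
theorem second (K : ℕ) (hK : 1 ≤ K) : ∃ C : ℝ, 0 < C ∧ ∀ k m : ℤ, 1 ≤ k → 1 ≤ m → m ≤ K * k →
    |SD k m| ≤ C * hh (1/2) k m / m^2 := by
  obtain ⟨C1, hC1, hr⟩ := ratio
  obtain ⟨C2, hC2, hs⟩ := scale K hK
  have hKz : (1:ℤ) ≤ K := by exact_mod_cast hK
  have hKr : (1:ℝ) ≤ K := by exact_mod_cast hK
  refine ⟨64 * K^2 + C1 * (C2 * K)^2, by positivity, ?_⟩
  intro k m hk hm hmk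
  have hmr : (1:ℝ) ≤ m := by exact_mod_cast hm
  have h0 : 0 ≤ hh (1/2) k m := hh_nonneg (by norm_num) (by norm_num) _ _
  have hb : 0 ≤ C1 * (C2 * K)^2 := by positivity
  rw [le_div_iff₀ (by positivity)]
  rcases lt_or_ge (min k m) 8 with h8 | h8
  · -- small scales
    have h1 := SD_triv (m := m) hk
    have h2 : m ≤ 8 * K := by
      rcases min_lt_iff.mp h8 with h3 | h3
      · nlinarith
      · nlinarith
    have h3 : (m:ℝ) ≤ 8 * K := by exact_mod_cast h2
    have h4 : (m:ℝ)^2 ≤ 64 * K^2 := by nlinarith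
    calc |SD k m| * (m:ℝ)^2 ≤ hh (1/2) k m * (64 * K^2) := by
          apply mul_le_mul h1 h4 (by positivity) h0
      _ ≤ (64 * K^2 + C1 * (C2 * K)^2) * hh (1/2) k m := by nlinarith
  · obtain ⟨r, hr'⟩ : ∃ r : ℤ, r = min k m := ⟨_, rfl⟩
    rw [← hr'] at h8
    have hrk : r ≤ k := by rw [hr']; exact min_le_left _ _
    have hrm : r ≤ m := by rw [hr']; exact min_le_right _ _
    have hmr' : m ≤ K * r := by
      rw [hr']
      rcases le_total k m with h3 | h3
      · rw [min_eq_left h3]; exact hmk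
      · rw [min_eq_right h3]; nlinarith
    obtain ⟨s, hs1, hs2, hs3⟩ := hs r m h8 hm hmr'
    have h1 := SD_le (k := k) (m := m) hs1 (by omega)
    have h2 := hr (k - 2 * s) k m (by omega) hm (by omega) (by omega)
    have h3 := lam_nonneg s m
    have hrr : (8:ℝ) ≤ r := by exact_mod_cast h8
    have h4 : (m:ℝ) ≤ K * r := by exact_mod_cast hmr'
    have h5 : lam s m * m ≤ C2 * K := by
      have h6 : lam s m * r ≤ C2 := by
        rw [le_div_iff₀ (by linarith)] at hs3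
        exact hs3
      calc lam s m * m ≤ lam s m * (K * r) := mul_le_mul_of_nonneg_left h4 h3
        _ = (lam s m * r) * K := by ring
        _ ≤ C2 * K := mul_le_mul_of_nonneg_right h6 (by positivity)
    have h6 : (lam s m * m)^2 ≤ (C2 * K)^2 := pow_le_pow_left₀ (by positivity) h5 2
    have h7 : 0 ≤ hh (1/2) (k - 2 * s) m := hh_nonneg (by norm_num) (by norm_num) _ _
    calc |SD k m| * (m:ℝ)^2 ≤ (lam s m ^ 2 * hh (1/2) (k - 2 * s) m) * (m:ℝ)^2 :=
          mul_le_mul_of_nonneg_right h1 (by positivity)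
      _ = (lam s m * m)^2 * hh (1/2) (k - 2 * s) m := by ring
      _ ≤ (C2 * K)^2 * (C1 * hh (1/2) k m) := by
          apply mul_le_mul h6 h2 h7 (by positivity)
      _ ≤ (64 * K^2 + C1 * (C2 * K)^2) * hh (1/2) k m := by
          have : 0 ≤ 64 * (K:ℝ)^2 * hh (1/2) k m := by positivity
          nlinarith

end Pool.Agent.U167.AR
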