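import Pool.Agent.W424.AR.Bdd
import Pool.Agent.H974R2.Count

/-!
Tips: the clusters of a strip which touch the column `b` but not the column `b + 1`.
-/

set_option maxHeartbeats 1000000

namespace Pool.Agent.U167.AR

open H974 Finset Pool.Agent.W424.AR

/-- A cluster of the rectangle `[a, b+1] × [0, m]` touches the columns `a` and `b`, not `b + 1`. -/
def RT (a b m : ℤ) (F : Finset Edg) : Prop :=
  ∃ y y', (0 ≤ y ∧ y ≤ m) ∧ (0 ≤ y' ∧ y' ≤ m) ∧
    Reach (↑F ∩ ↑(LRE a (b + 1) 0 m)) (a, y) (b, y') ∧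
    ∀ z, ¬ Reach (↑F ∩ ↑(LRE a (b + 1) 0 m)) (a, y) (b + 1, z)

/-- A cluster of the rectangle `[a-1, b] × [0, m]` touches the columns `b` and `a`, not `a - 1`. -/
def LT (a b m : ℤ) (F : Finset Edg) : Prop :=
  ∃ y y', (0 ≤ y ∧ y ≤ m) ∧ (0 ≤ y' ∧ y' ≤ m) ∧
    Reach (↑F ∩ ↑(LRE (a - 1) b 0 m)) (b, y) (a, y') ∧
    ∀ z, ¬ Reach (↑F ∩ ↑(LRE (a - 1) b 0 m)) (b, y) (a - 1, z)

theorem RT_local {a b m : ℤ} {F S : Finset Edg} (hS : LRE a (b + 1) 0 m ⊆ S) :
    RT a b m F ↔ RT a b m (F ∩ S) := by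
  unfold RT
  rw [coe_inter_eq hS]

theorem LT_local {a b m : ℤ} {F S : Finset Edg} (hS : LRE (a - 1) b 0 m ⊆ S) :
    LT a b m F ↔ LT a b m (F ∩ S) := by
  unfold LT
  rw [coe_inter_eq hS]

theorem RT_trl {a b m s : ℤ} {F : Finset Edg} (h : RT a b m F) :
    RT (a + s) (b + s) m ((trl s 0).mp F) := by
  obtain ⟨y, y', h1, h2, h3, h4⟩ := h
  have e1 : b + s + 1 = b + 1 + s := by ring
  have e2 : (↑((trl s 0).mp F) : Set Edg) ∩ ↑(LRE (a + s) (b + s + 1) 0 m) =
      (trl s 0).φ '' ((↑F : Set Edg) ∩ ↑(LRE a (b + 1) 0 m)) := by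
    rw [LSym.image_inter, trl_LRE, e1]
    simp
  refine ⟨y, y', h1, h2, ?_, ?_⟩
  · rw [e2]
    have := (trl s 0).reach h3
    simpa using this
  · intro z hz
    rw [e2, e1] at hz
    apply h4 z
    rw [← (trl s 0).reach_iff]
    simpa using hz

theorem RT_trl_iff {a b m s : ℤ} {F : Finset Edg} :
    RT (a + s) (b + s) m ((trl s 0).mp F) ↔ RT a b m F := by
  constructor
  · intro h
    have := RT_trl (s := -s) h
    have e := trl_trl s 0 F
    rw [neg_zero] at e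
    rw [e] at this
    simpa using this
  · exact RT_trl

/-- The probability of a tip. -/
noncomputable def lam (s m : ℤ) : ℝ := Pr (fun _ => 1/2) (LRE 0 (s + 1) 0 m) (RT 0 s m)

theorem pr_RT {a b m : ℤ} {S : Finset Edg} (hS : LRE a (b + 1) 0 m ⊆ S) :
    Pr (fun _ => 1/2) S (RT a b m) = lam (b - a) m := by
  have h0 : Pr (fun _ => (1/2 : ℝ)) S (RT a b m) =
      Pr (fun _ => 1/2) (LRE a (b + 1) 0 m) (RT a b m) := by
    apply Pr_local hS
    intro F _
    exact RT_local (Finset.Subset.refl _)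
  rw [h0]
  unfold lam
  have h1 : LRE a (b + 1) 0 m = (trl a 0).mp (LRE 0 (b - a + 1) 0 m) := by
    rw [trl_LRE]; congr 1 <;> ring
  rw [h1, LSym.pr]
  apply Pr_congr
  intro F _
  have := RT_trl_iff (a := 0) (b := b - a) (m := m) (s := a) (F := F)
  simpa using this

theorem LT_rfx {a b m k : ℤ} {F : Finset Edg} (h : RT a b m F) :
    LT (k - b) (k - a) m ((rfx k).mp F) := by
  obtain ⟨y, y', h1, h2, h3, h4⟩ := h
  have e1 : k - (b + 1) = k - b - 1 := by ring
  have e2 : (↑((rfx k).mp F) : Set Edg) ∩ ↑(LRE (k - b - 1) (k - a) 0 m) =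
      (rfx k).φ '' ((↑F : Set Edg) ∩ ↑(LRE a (b + 1) 0 m)) := by
    rw [LSym.image_inter, rfx_LRE, e1]
  refine ⟨y, y', h1, h2, ?_, ?_⟩
  · rw [e2]
    have := (rfx k).reach h3
    simpa using this
  · intro z hz
    rw [e2] at hz
    apply h4 z
    rw [← (rfx k).reach_iff]
    rw [rfx_ψ, rfx_ψ, e1]
    exact hz

theorem RT_rfx {a b m k : ℤ} {F : Finset Edg} (h : LT a b m F) :
    RT (k - b) (k - a) m ((rfx k).mp F) := by
  obtain ⟨y, y', h1, h2, h3, h4⟩ := h
  have e1 : k - (a - 1) = k - a + 1 := by ring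
  have e2 : (↑((rfx k).mp F) : Set Edg) ∩ ↑(LRE (k - b) (k - a + 1) 0 m) =
      (rfx k).φ '' ((↑F : Set Edg) ∩ ↑(LRE (a - 1) b 0 m)) := by
    rw [LSym.image_inter, rfx_LRE, e1]
  refine ⟨y, y', h1, h2, ?_, ?_⟩
  · rw [e2]
    have := (rfx k).reach h3
    simpa using this
  · intro z hz
    rw [e2] at hz
    apply h4 z
    rw [← (rfx k).reach_iff]
    rw [rfx_ψ, rfx_ψ, e1]
    exact hz

theorem rfx_rfx (k : ℤ) (F : Finset Edg) : (rfx k).mp ((rfx k).mp F) = F := by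
  ext ⟨x, y, _ | _⟩
  · simp [LSym.mem_mp]
  · have e : k - (k - x - 1) - 1 = x := by ring
    simp [LSym.mem_mp, e]

theorem LT_iff {a b m k : ℤ} {F : Finset Edg} :
    LT (k - b) (k - a) m ((rfx k).mp F) ↔ RT a b m F := by
  constructor
  · intro h
    have := RT_rfx (k := k) h
    rw [rfx_rfx] at this
    simpa using this
  · exact LT_rfx

theorem pr_LT {a b m : ℤ} {S : Finset Edg} (hS : LRE (a - 1) b 0 m ⊆ S) :
    Pr (fun _ => 1/2) S (LT a b m) = lam (b - a) m := by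
  have h0 : Pr (fun _ => (1/2 : ℝ)) S (LT a b m) =
      Pr (fun _ => 1/2) (LRE (a - 1) b 0 m) (LT a b m) := by
    apply Pr_local hS
    intro F _
    exact LT_local (Finset.Subset.refl _)
  rw [h0]
  unfold lam
  have h1 : LRE (a - 1) b 0 m = (rfx b).mp (LRE 0 (b - a + 1) 0 m) := by
    rw [rfx_LRE]; congr 1 <;> ring
  rw [h1, LSym.pr]
  apply Pr_congr
  intro F _
  have := LT_iff (a := 0) (b := b - a) (m := m) (k := b) (F := F)
  simpa using this

theorem lam_nonneg (s m : ℤ) : 0 ≤ lam s m :=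
  Pr_nonneg (okq (by norm_num) (by norm_num)) _ _

/-- The cluster of a tip stays on the left of the next column. -/
theorem stay {L s m y : ℤ} {F : Finset Edg} (hF : F ⊆ LRE 0 L 0 m) (hs : 0 ≤ s)
    (h : ∀ z, ¬ Reach (↑F ∩ ↑(LRE 0 (s + 1) 0 m)) (0, y) (s + 1, z)) {v : Vtx}
    (hv : Reach (↑F) (0, y) v) :
    v.1 ≤ s ∧ Reach (↑F ∩ ↑(LRE 0 (s + 1) 0 m)) (0, y) v := by
  induction hv with
  | refl => exact ⟨hs, Reach.refl _ _⟩
  | @tail v v' _ hs' ih =>
    obtain ⟨ih1, ih2⟩ := ih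
    obtain ⟨⟨x0, y0, bo⟩, heF, hcase⟩ := hs'
    have heL := hF (Finset.mem_coe.mp heF)
    cases bo
    · simp only [src_mk, tgt_false] at hcase
      rw [mem_LRE_false] at heL
      have hx : x0 ≤ s := by
        rcases hcase with ⟨h3, h4⟩ | ⟨h3, h4⟩
        · rw [← h3] at ih1; exact ih1
        · rw [← h4] at ih1; exact ih1
      have hm : ((x0, y0, false) : Edg) ∈ (↑F : Set Edg) ∩ ↑(LRE 0 (s + 1) 0 m) :=
        ⟨heF, by rw [Finset.mem_coe, mem_LRE_false]; omega⟩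
      refine ⟨?_, ih2.trans (Adj.reach ⟨_, hm, by simpa only [src_mk, tgt_false] using hcase⟩)⟩
      rcases hcase with ⟨h3, h4⟩ | ⟨h3, h4⟩
      · rw [← h4]; exact hx
      · rw [← h3]; exact hx
    · simp only [src_mk, tgt_true] at hcase
      rw [mem_LRE_true] at heL
      have hx : x0 ≤ s := by
        rcases hcase with ⟨h3, h4⟩ | ⟨h3, h4⟩
        · rw [← h3] at ih1; exact ih1
        · rw [← h4] at ih1; simp only at ih1; omega
      have hm : ((x0, y0, true) : Edg) ∈ (↑F : Set Edg) ∩ ↑(LRE 0 (s + 1) 0 m) :=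
        ⟨heF, by rw [Finset.mem_coe, mem_LRE_true]; omega⟩
      have hr := ih2.trans (Adj.reach ⟨_, hm, by simpa only [src_mk, tgt_true] using hcase⟩)
      refine ⟨?_, hr⟩
      rcases hcase with ⟨h3, h4⟩ | ⟨h3, h4⟩
      · rw [← h4] at hr ⊢
        rcases eq_or_lt_of_le hx with h5 | h5
        · rw [h5] at hr
          exact absurd hr (h y0)
        · simp only; omega
      · rw [← h3]; exact hx

/-- The vertices of the column `0`. -/
noncomputable def col (m : ℤ) : Finset Vtx := (Finset.Icc 0 m).image (fun y => ((0:ℤ), y))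

theorem mem_col {m : ℤ} {v : Vtx} : v ∈ col m ↔ v.1 = 0 ∧ 0 ≤ v.2 ∧ v.2 ≤ m := by
  unfold col
  rw [Finset.mem_image]
  constructor
  · rintro ⟨y, hy, rfl⟩
    rw [Finset.mem_Icc] at hy
    exact ⟨rfl, hy⟩
  · rintro ⟨h1, h2⟩
    exact ⟨v.2, Finset.mem_Icc.mpr h2, by rw [← h1]⟩

open Classical in
/-- The number of tips is at most the number of clusters. -/
theorem sum_tip {L a m : ℤ} (ha : 0 < a) {F : Finset Edg} (hF : F ⊆ LRE 0 L 0 m) :
    ∑ s ∈ Finset.Ico a L, ind (RT 0 s m F) ≤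
      ((NC src tgt (col m) {v : Vtx | v.1 = a} (↑F : Set Edg) : ℕ) : ℝ) := by
  have key : ∀ s ∈ (Finset.Ico a L).filter (fun s => RT 0 s m F), ∃ C : Set Vtx,
      C ∈ TC src tgt (col m) {v : Vtx | v.1 = a} (↑F : Set Edg) ∧
      (∃ y', (s, y') ∈ C) ∧ ∀ v ∈ C, v.1 ≤ s := by
    intro s hs
    rw [Finset.mem_filter, Finset.mem_Ico] at hs
    obtain ⟨⟨h1, h2⟩, y, y', h3, h4, h5, h6⟩ := hs
    have h7 : Reach (↑F : Set Edg) (0, y) (s, y') := h5.mono Set.inter_subset_left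
    refine ⟨clu src tgt (↑F : Set Edg) (0, y), ?_, ⟨y', h7⟩, ?_⟩
    · rw [mem_TC]
      refine ⟨(0, y), mem_col.mpr ⟨rfl, h3⟩, ?_, rfl⟩
      obtain ⟨y1, y2, -, -, h8, h9⟩ := sub_LR (G := (↑F : Set Edg)) (a := 0) (b := a) (c := 0)
        (d := m) ha
        (by
          intro x z hG _ _
          have := hF (Finset.mem_coe.mp hG)
          rw [mem_LRE_true] at this
          omega)
        (by
          intro x z hG _ _
          have := hF (Finset.mem_coe.mp hG)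
          rw [mem_LRE_false] at this
          omega) h7 le_rfl h1
      exact ⟨(a, y2), rfl, h9.trans (h8.mono Set.inter_subset_left)⟩
    · intro v hv
      exact (stay hF (by omega) h6 hv).1
  choose! f hf using key
  have hcard : ((Finset.Ico a L).filter (fun s => RT 0 s m F)).card ≤
      (TC src tgt (col m) {v : Vtx | v.1 = a} (↑F : Set Edg)).card := by
    apply Finset.card_le_card_of_injOn f
    · intro s hs
      exact (hf s hs).1
    · intro s hs s' hs' heq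
      obtain ⟨y1, h1⟩ := (hf s hs).2.1
      obtain ⟨y2, h2⟩ := (hf s' hs').2.1
      rw [heq] at h1
      rw [← heq] at h2
      have h3 := (hf s' hs').2.2 _ h1
      have h4 := (hf s hs).2.2 _ h2
      exact le_antisymm h3 h4
  have hsum : ∑ s ∈ Finset.Ico a L, ind (RT 0 s m F) =
      (((Finset.Ico a L).filter (fun s => RT 0 s m F)).card : ℝ) := by
    rw [Finset.card_filter]
    push_cast
    apply Finset.sum_congr rfl
    intro s _
    unfold ind
    split_ifs <;> rfl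
  rw [hsum]
  unfold NC
  exact_mod_cast hcard

/-- The sum of the probabilities of the tips. -/
theorem sum_lam {L a m : ℤ} (ha : 0 < a) (haL : a ≤ L) (h1 : hh (1/2) a m < 1) :
    ∑ s ∈ Finset.Ico a L, lam s m ≤ 2 / (1 - hh (1/2) a m)^2 := by
  have ok := okq (q := 1/2) (by norm_num) (by norm_num)
  have e1 : ∑ s ∈ Finset.Ico a L, lam s m =
      Ex (fun _ => 1/2) (LRE 0 L 0 m) (fun F => ∑ s ∈ Finset.Ico a L, ind (RT 0 s m F)) := by
    rw [Ex_sum]
    apply Finset.sum_congr rfl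
    intro s hs
    rw [Finset.mem_Ico] at hs
    have h2 := pr_RT (a := 0) (b := s) (m := m) (S := LRE 0 L 0 m) (by
      rintro ⟨x, y, _ | _⟩ he
      · rw [mem_LRE_false] at he ⊢; omega
      · rw [mem_LRE_true] at he ⊢; omega)
    rw [sub_zero] at h2
    rw [← h2]
    rfl
  rw [e1]
  have h2 : Ex (fun _ => 1/2) (LRE 0 L 0 m) (fun F => ∑ s ∈ Finset.Ico a L, ind (RT 0 s m F)) ≤
      Ex (fun _ => 1/2) (LRE 0 L 0 m) (fun F =>
        ((NC src tgt (col m) {v : Vtx | v.1 = a} (↑F : Set Edg) : ℕ) : ℝ)^2) := by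
    apply Ex_mono ok
    intro F hF
    refine (sum_tip ha hF).trans ?_
    have : NC src tgt (col m) {v : Vtx | v.1 = a} (↑F : Set Edg) ≤
        (NC src tgt (col m) {v : Vtx | v.1 = a} (↑F : Set Edg))^2 := Nat.le_self_pow two_ne_zero _
    exact_mod_cast this
  refine h2.trans (NC_sq ok _ _ _ _ _ h1 ?_)
  have h3 : LRE 0 a 0 m ⊆ LRE 0 L 0 m := by
    rintro ⟨x, y, _ | _⟩ he
    · rw [mem_LRE_false] at he ⊢; omega
    · rw [mem_LRE_true] at he ⊢; omega
  have h4 := pr_LRc (1/2) h3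
  rw [sub_zero, sub_zero] at h4
  rw [← h4]
  apply Pr_mono ok
  rintro F hF ⟨x, hx, b, hb, hr⟩
  obtain ⟨hx1, hx2⟩ := mem_col.mp hx
  have hx' : x = (0, x.2) := by rw [← hx1]
  rw [hx'] at hr
  obtain ⟨y1, y2, h5, h6, h8, -⟩ := sub_LR (G := (↑F : Set Edg)) (a := 0) (b := a) (c := 0)
    (d := m) ha
    (by
      intro x z hG _ _
      have := hF (Finset.mem_coe.mp hG)
      rw [mem_LRE_true] at this
      omega)
    (by
      intro x z hG _ _
      have := hF (Finset.mem_coe.mp hG)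
      rw [mem_LRE_false] at this
      omega) hr le_rfl (le_of_eq (by exact hb.symm))
  exact ⟨y1, y2, h5, h6, h8⟩

end Pool.Agent.U167.AR
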